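import Mathlib

set_option autoImplicit false

noncomputable section

open MeasureTheory ProbabilityTheory Module
open scoped ENNReal NNReal RealInnerProductSpace

namespace Pool.Agent.X166.GP

/-- the standard real Gaussian -/
abbrev g1 : Measure ℝ := gaussianReal 0 1

lemma pdf_le (x : ℝ) : gaussianPDF 0 1 x ≤ ENNReal.ofReal (1 / 2) := by
  rw [gaussianPDF]
  apply ENNReal.ofReal_le_ofReal
  rw [gaussianPDFReal]
  have h1 : Real.exp (-(x - 0) ^ 2 / (2 * ((1 : ℝ≥0) : ℝ))) ≤ 1 := by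
    apply Real.exp_le_one_iff.2
    simp only [sub_zero, NNReal.coe_one, mul_one]
    have := sq_nonneg x
    linarith
  have h2 : (2:ℝ) ≤ Real.sqrt (2 * Real.pi * ((1 : ℝ≥0) : ℝ)) := by
    apply Real.le_sqrt_of_sq_le
    simp only [NNReal.coe_one, mul_one]
    have := Real.pi_gt_three
    linarith
  have h3 : (Real.sqrt (2 * Real.pi * ((1 : ℝ≥0) : ℝ)))⁻¹ ≤ 1 / 2 := by
    rw [one_div]
    exact inv_anti₀ (by norm_num) h2
  calc _ ≤ (1/2 : ℝ) * 1 := mul_le_mul h3 h1 (Real.exp_pos _).le (by norm_num)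
    _ = 1 / 2 := by ring

lemma g1_Icc_le {s : ℝ} (hs : 0 ≤ s) : g1 (Set.Icc (-s) s) ≤ ENNReal.ofReal s := by
  rw [gaussianReal_apply _ one_ne_zero]
  calc ∫⁻ x in Set.Icc (-s) s, gaussianPDF 0 1 x ≤ ∫⁻ _ in Set.Icc (-s) s, ENNReal.ofReal (1 / 2) :=
        lintegral_mono fun x => pdf_le x
    _ = ENNReal.ofReal s := by
        rw [setLIntegral_const, Real.volume_Icc, ← ENNReal.ofReal_mul (by norm_num)]
        congr 1
        ring

lemma g1_Icc_ge {s : ℝ} (hs : 0 ≤ s) (hs1 : s ≤ 1) :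
    ENNReal.ofReal (s / 4) ≤ g1 (Set.Icc (-s) s) := by
  rw [gaussianReal_apply _ one_ne_zero]
  have h : ∀ x ∈ Set.Icc (-s) s, ENNReal.ofReal (1 / 8) ≤ gaussianPDF 0 1 x := by
    intro x hx
    rw [gaussianPDF]
    apply ENNReal.ofReal_le_ofReal
    rw [gaussianPDFReal]
    have hx2 : x ^ 2 ≤ 1 := by
      have h1 := hx.1
      have h2 := hx.2
      nlinarith
    have h1 : Real.exp (-1/2) ≤ Real.exp (-(x - 0) ^ 2 / (2 * ((1 : ℝ≥0) : ℝ))) := by
      apply Real.exp_le_exp.2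
      simp only [sub_zero, NNReal.coe_one, mul_one]
      linarith
    have h1' : (1/2 : ℝ) ≤ Real.exp (-1/2) := by
      have := Real.add_one_le_exp (-1/2 : ℝ)
      linarith
    have h2 : Real.sqrt (2 * Real.pi * ((1 : ℝ≥0) : ℝ)) ≤ 4 := by
      apply Real.sqrt_le_iff.2
      simp only [NNReal.coe_one, mul_one]
      have := Real.pi_lt_four
      constructor
      · norm_num
      · linarith
    have hpos : 0 < Real.sqrt (2 * Real.pi * ((1 : ℝ≥0) : ℝ)) := by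
      apply Real.sqrt_pos.2
      simp only [NNReal.coe_one, mul_one]
      positivity
    have h3 : (1/4 : ℝ) ≤ (Real.sqrt (2 * Real.pi * ((1 : ℝ≥0) : ℝ)))⁻¹ := by
      rw [one_div]
      exact inv_anti₀ hpos h2
    calc (1/8 : ℝ) = 1/4 * (1/2) := by norm_num
      _ ≤ _ := mul_le_mul h3 (h1'.trans h1) (by norm_num) (by positivity)
  calc ENNReal.ofReal (s / 4) = ∫⁻ _ in Set.Icc (-s) s, ENNReal.ofReal (1 / 8) := by
        rw [setLIntegral_const, Real.volume_Icc, ← ENNReal.ofReal_mul (by norm_num)]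
        congr 1
        ring
    _ ≤ _ := setLIntegral_mono' measurableSet_Icc h

/-- second moment -/
lemma g1_sq : ∫⁻ x, ENNReal.ofReal (x ^ 2) ∂g1 = 1 := by
  have h1 : ∫ x, x ^ 2 ∂g1 = 1 := by
    have h2 := variance_id_gaussianReal (μ := 0) (v := 1)
    have hm : MemLp (id : ℝ → ℝ) 2 g1 := memLp_id_gaussianReal 2
    rw [variance_eq_sub hm] at h2
    simp only [integral_id_gaussianReal, Pi.pow_apply, id_eq] at h2
    simpa using h2
  have hi : Integrable (fun x : ℝ => x ^ 2) g1 := by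
    have hm : MemLp (id : ℝ → ℝ) 2 g1 := memLp_id_gaussianReal 2
    simpa using hm.integrable_sq
  rw [← ofReal_integral_eq_lintegral_ofReal hi (ae_of_all _ fun x => sq_nonneg x), h1]
  simp

/-- the constant `K₁` -/
def K1 : ℝ≥0∞ := (eLpNorm' (fun x : ℝ => x⁻¹) (2 / 3) g1) ^ (2 : ℕ)

lemma half_fin : ∫⁻ a in Set.Icc (0:ℝ) 1, ‖a⁻¹‖ₑ ^ (2 / 3 : ℝ) < ⊤ := by
  have h := (intervalIntegral.intervalIntegrable_rpow' (a := 0) (b := 1) (r := -(2/3)) (by norm_num)).1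
  have h2 := h.2
  rw [HasFiniteIntegral] at h2
  rw [← restrict_Ioc_eq_restrict_Icc]
  refine lt_of_le_of_lt (setLIntegral_mono' measurableSet_Ioc fun x hx => ?_) h2
  rw [Real.enorm_eq_ofReal_abs, Real.enorm_eq_ofReal_abs, ENNReal.ofReal_rpow_of_nonneg (abs_nonneg _) (by norm_num)]
  apply ENNReal.ofReal_le_ofReal
  rw [abs_of_pos (inv_pos.2 hx.1), abs_of_pos (Real.rpow_pos_of_pos hx.1 _), Real.rpow_neg hx.1.le,
    Real.inv_rpow hx.1.le]

lemma K1_lt_top : K1 < ⊤ := by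
  unfold K1
  refine ENNReal.pow_lt_top ?_
  rw [eLpNorm'_eq_lintegral_enorm]
  refine ENNReal.rpow_lt_top_of_nonneg (by norm_num) ?_
  refine ne_of_lt ?_
  have hneg : ∫⁻ a in Set.Icc (-1:ℝ) 0, ‖a⁻¹‖ₑ ^ (2 / 3 : ℝ) = ∫⁻ a in Set.Icc (0:ℝ) 1, ‖a⁻¹‖ₑ ^ (2 / 3 : ℝ) := by
    have h := (Measure.measurePreserving_neg (volume : Measure ℝ)).setLIntegral_comp_preimage
      (measurableSet_Icc (a := (0:ℝ)) (b := 1)) (f := fun a : ℝ => ‖a⁻¹‖ₑ ^ (2 / 3 : ℝ)) (by fun_prop)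
    rw [← h]
    have he : (Neg.neg : ℝ → ℝ) ⁻¹' Set.Icc (0:ℝ) 1 = Set.Icc (-1:ℝ) 0 := by
      ext x
      simp only [Set.mem_preimage, Set.mem_Icc]
      constructor <;> rintro ⟨h1, h2⟩ <;> constructor <;> linarith
    rw [he]
    refine lintegral_congr fun x => ?_
    simp [inv_neg]
  calc ∫⁻ a, ‖a⁻¹‖ₑ ^ (2 / 3 : ℝ) ∂g1 ≤ ∫⁻ a, (1 + (Set.Icc (-1:ℝ) 1).indicator (fun a => ‖a⁻¹‖ₑ ^ (2 / 3 : ℝ)) a) ∂g1 := by
        refine lintegral_mono fun a => ?_
        by_cases ha : a ∈ Set.Icc (-1:ℝ) 1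
        · rw [Set.indicator_of_mem ha]
          exact le_add_self
        · rw [Set.indicator_of_notMem ha, add_zero]
          have h1 : 1 < |a| := by
            by_contra hcon
            push Not at hcon
            exact ha (abs_le.1 hcon)
          have h2 : ‖a⁻¹‖ₑ ≤ 1 := by
            rw [Real.enorm_eq_ofReal_abs, abs_inv]
            rw [ENNReal.ofReal_le_one]
            exact inv_le_one_of_one_le₀ h1.le
          calc ‖a⁻¹‖ₑ ^ (2 / 3 : ℝ) ≤ 1 ^ (2/3 : ℝ) := ENNReal.rpow_le_rpow h2 (by norm_num)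
            _ = 1 := ENNReal.one_rpow _
    _ = 1 + ∫⁻ a in Set.Icc (-1:ℝ) 1, ‖a⁻¹‖ₑ ^ (2 / 3 : ℝ) ∂g1 := by
        rw [lintegral_add_left measurable_const, lintegral_indicator measurableSet_Icc]
        simp
    _ ≤ 1 + ENNReal.ofReal (1/2) * ∫⁻ a in Set.Icc (-1:ℝ) 1, ‖a⁻¹‖ₑ ^ (2 / 3 : ℝ) := by
        gcongr
        rw [g1, gaussianReal_of_var_ne_zero _ one_ne_zero, setLIntegral_withDensity_eq_setLIntegral_mul _
          (measurable_gaussianPDF 0 1) (by fun_prop) measurableSet_Icc, ← lintegral_const_mul _ (by fun_prop)]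
        refine lintegral_mono fun x => ?_
        exact mul_le_mul' (pdf_le x) le_rfl
    _ < ⊤ := by
        refine ENNReal.add_lt_top.2 ⟨ENNReal.one_lt_top, ENNReal.mul_lt_top ENNReal.ofReal_lt_top ?_⟩
        have hsub : Set.Icc (-1:ℝ) 1 ⊆ Set.Icc (-1) 0 ∪ Set.Icc 0 1 := by
          intro x hx
          rcases le_total x 0 with h | h
          · exact Or.inl ⟨hx.1, h⟩
          · exact Or.inr ⟨h, hx.2⟩
        refine lt_of_le_of_lt (lintegral_mono_set hsub) ?_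
        refine lt_of_le_of_lt (lintegral_union_le _ _ _) ?_
        rw [hneg]
        exact ENNReal.add_lt_top.2 ⟨half_fin, half_fin⟩

variable {E : Type*} [NormedAddCommGroup E] [InnerProductSpace ℝ E] [FiniteDimensional ℝ E]
  [MeasurableSpace E] [BorelSpace E]

lemma map_inner {n : E} (hn : ‖n‖ = 1) : (stdGaussian E).map (fun a => ⟪n, a⟫) = g1 := by
  have h := IsGaussian.map_eq_gaussianReal (μ := stdGaussian E) (innerSL ℝ n)
  rw [integral_strongDual_stdGaussian, variance_dual_stdGaussian, innerSL_apply_norm, hn] at h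
  simpa using h

lemma strip_eq {n : E} (hn : ‖n‖ = 1) (s : ℝ) :
    stdGaussian E {a | |⟪n, a⟫| ≤ s} = g1 (Set.Icc (-s) s) := by
  rw [← map_inner hn, Measure.map_apply (by fun_prop) measurableSet_Icc]
  congr 1
  ext a
  simp [abs_le]

lemma strip_le {n : E} (hn : ‖n‖ = 1) {s : ℝ} (hs : 0 ≤ s) :
    stdGaussian E {a | |⟪n, a⟫| ≤ s} ≤ ENNReal.ofReal s := by
  rw [strip_eq hn]
  exact g1_Icc_le hs

lemma strip_ge {n : E} (hn : ‖n‖ = 1) {s : ℝ} (hs : 0 ≤ s) (hs1 : s ≤ 1) :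
    ENNReal.ofReal (s / 4) ≤ stdGaussian E {a | |⟪n, a⟫| ≤ s} := by
  rw [strip_eq hn]
  exact g1_Icc_ge hs hs1

/-- the norm of the projection to `W` -/
def pn (W : Submodule ℝ E) (a : E) : ℝ := ‖W.orthogonalProjectionOnto a‖

lemma map_proj (W : Submodule ℝ E) :
    (stdGaussian E).map (W.orthogonalProjectionOnto) = stdGaussian W := by
  apply Measure.ext_of_charFun
  ext t
  rw [charFun_stdGaussian, charFun_apply, integral_map (by fun_prop) (by fun_prop)]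
  have h := charFun_stdGaussian (E := E) (t : E)
  rw [charFun_apply] at h
  rw [Submodule.coe_norm, ← h]
  refine integral_congr_ae (ae_of_all _ fun x => ?_)
  simp only
  congr 3
  exact Submodule.inner_orthogonalProjectionOnto_eq_of_mem_right t x

omit [MeasurableSpace E] [BorelSpace E] in
lemma sq_sum (W : Submodule ℝ E) (x : Fin (finrank ℝ W) → ℝ) :
    ‖∑ i, x i • stdOrthonormalBasis ℝ W i‖ ^ 2 = ∑ i, x i ^ 2 := by
  rw [← (stdOrthonormalBasis ℝ W).sum_sq_inner_right]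
  refine Finset.sum_congr rfl fun i _ => ?_
  rw [(stdOrthonormalBasis ℝ W).orthonormal.inner_right_fintype]

lemma proj_lintegral (W : Submodule ℝ E) (F : ℝ → ℝ≥0∞) (hF : Measurable F) :
    ∫⁻ a, F (pn W a ^ 2) ∂(stdGaussian E) =
      ∫⁻ x : Fin (finrank ℝ W) → ℝ, F (∑ i, x i ^ 2) ∂(Measure.pi fun _ => g1) := by
  have h1 : ∫⁻ a, F (pn W a ^ 2) ∂(stdGaussian E) =
      ∫⁻ w, F (‖w‖ ^ 2) ∂(stdGaussian W) := by
    rw [← map_proj, lintegral_map (by fun_prop) (by fun_prop)]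
    rfl
  rw [h1, stdGaussian, lintegral_map (by fun_prop) (by fun_prop)]
  refine lintegral_congr fun x => ?_
  rw [sq_sum]

lemma proj_sq (W : Submodule ℝ E) :
    ∫⁻ a, ENNReal.ofReal (pn W a ^ 2) ∂(stdGaussian E) = finrank ℝ W := by
  rw [proj_lintegral W (fun y => ENNReal.ofReal y) (by fun_prop)]
  have h1 : ∀ x : Fin (finrank ℝ W) → ℝ, ENNReal.ofReal (∑ i, x i ^ 2) = ∑ i, ENNReal.ofReal (x i ^ 2) :=
    fun x => ENNReal.ofReal_sum_of_nonneg fun i _ => sq_nonneg _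
  simp_rw [h1]
  rw [lintegral_finsetSum _ (by fun_prop)]
  have h2 : ∀ i : Fin (finrank ℝ W), ∫⁻ x : Fin (finrank ℝ W) → ℝ, ENNReal.ofReal (x i ^ 2)
      ∂(Measure.pi fun _ => g1) = 1 := by
    intro i
    have h := (measurePreserving_eval (fun _ : Fin (finrank ℝ W) => g1) i).lintegral_comp
      (f := fun y : ℝ => ENNReal.ofReal (y ^ 2)) (by fun_prop)
    rw [g1_sq] at h
    exact h
  simp [h2]

/-- the projection is not too large with probability at least `1/2` -/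
lemma proj_half (W : Submodule ℝ E) (hW : 0 < finrank ℝ W) :
    1 / 2 ≤ stdGaussian E {a | pn W a ^ 2 ≤ 2 * finrank ℝ W} := by
  have hmeas : Measurable fun a : E => ENNReal.ofReal (pn W a ^ 2) := by
    unfold pn
    fun_prop
  have hd : (0:ℝ) < finrank ℝ W := by exact_mod_cast hW
  have h := mul_meas_ge_le_lintegral₀ (μ := stdGaussian E) hmeas.aemeasurable (2 * (finrank ℝ W : ℝ≥0∞))
  rw [proj_sq] at h
  have hset : {a : E | pn W a ^ 2 ≤ 2 * finrank ℝ W}ᶜ ⊆ {a | 2 * (finrank ℝ W : ℝ≥0∞) ≤ ENNReal.ofReal (pn W a ^ 2)} := by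
    intro a ha
    simp only [Set.mem_compl_iff, Set.mem_ofPred_eq, not_le] at ha ⊢
    have h3 : (2 * (finrank ℝ W : ℝ≥0∞)) = ENNReal.ofReal (2 * (finrank ℝ W : ℝ)) := by
      rw [ENNReal.ofReal_mul (by norm_num)]
      simp
    rw [h3]
    exact ENNReal.ofReal_le_ofReal ha.le
  have h4 : stdGaussian E ({a : E | pn W a ^ 2 ≤ 2 * finrank ℝ W}ᶜ) ≤ 1 / 2 := by
    refine (measure_mono hset).trans ?_
    have hne : (finrank ℝ W : ℝ≥0∞) ≠ 0 := by exact_mod_cast hW.ne'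
    have h5 : (finrank ℝ W : ℝ≥0∞) * (2 * stdGaussian E {a | 2 * (finrank ℝ W : ℝ≥0∞) ≤ ENNReal.ofReal (pn W a ^ 2)}) ≤
        finrank ℝ W * 1 := by
      rw [mul_one]
      refine le_trans (le_of_eq ?_) h
      ring
    have h6 := (ENNReal.mul_le_mul_iff_right hne (ENNReal.natCast_ne_top _)).1 h5
    rw [one_div, ENNReal.le_inv_iff_mul_le, mul_comm]
    exact h6
  have hm : MeasurableSet {a : E | pn W a ^ 2 ≤ 2 * finrank ℝ W} := by
    refine measurableSet_le ?_ measurable_const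
    unfold pn
    fun_prop
  rw [prob_compl_eq_one_sub hm] at h4
  have h7 : (1:ℝ≥0∞) ≤ 1 / 2 + stdGaussian E {a : E | pn W a ^ 2 ≤ 2 * finrank ℝ W} := by
    exact tsub_le_iff_right.1 h4
  rw [one_div] at h7 ⊢
  have h9 : (2:ℝ≥0∞)⁻¹ + 2⁻¹ ≤ 2⁻¹ + stdGaussian E {a : E | pn W a ^ 2 ≤ 2 * finrank ℝ W} := by
    rw [ENNReal.inv_two_add_inv_two]
    exact h7
  exact (ENNReal.add_le_add_iff_left (by simp)).1 h9

lemma pi_prod {d : ℕ} (f : ℝ → ℝ≥0∞) (hf : Measurable f) :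
    ∫⁻ x : Fin d → ℝ, ∏ i, f (x i) ∂(Measure.pi fun _ => g1) = (∫⁻ y, f y ∂g1) ^ d := by
  have hi : iIndepFun (fun (i : Fin d) (x : Fin d → ℝ) => f (x i)) (Measure.pi fun _ => g1) :=
    iIndepFun_pi (X := fun _ : Fin d => f) (fun i => hf.aemeasurable)
  have h := lintegral_prod_eq_prod_lintegral_of_indepFun (Finset.univ)
    (fun (i : Fin d) (x : Fin d → ℝ) => f (x i)) hi (fun i => by fun_prop)
  rw [h]
  have h2 : ∀ i : Fin d, ∫⁻ x : Fin d → ℝ, f (x i) ∂(Measure.pi fun _ => g1) = ∫⁻ y, f y ∂g1 :=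
    fun i => (measurePreserving_eval (fun _ : Fin d => g1) i).lintegral_comp hf
  simp [h2]

lemma amgm {d : ℕ} (hd : 0 < d) (x : Fin d → ℝ) (hx : ∀ i, x i ≠ 0) :
    (d : ℝ≥0∞) / ENNReal.ofReal (∑ i, x i ^ 2) ≤ ∏ i, ‖(x i)⁻¹‖ₑ ^ (2 / d : ℝ) := by
  have hd' : (0:ℝ) < d := by exact_mod_cast hd
  have hag := Real.geom_mean_le_arith_mean_weighted (Finset.univ : Finset (Fin d)) (fun _ => (1:ℝ) / d)
    (fun i => x i ^ 2) (fun i _ => by positivity) (by simp [hd'.ne']) (fun i _ => sq_nonneg _)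
  rw [← Finset.mul_sum] at hag
  have hpos : ∀ i, 0 < x i ^ 2 := fun i => by
    have := hx i
    positivity
  have hP : 0 < ∏ i, (x i ^ 2) ^ ((1:ℝ) / d) := Finset.prod_pos fun i _ => Real.rpow_pos_of_pos (hpos i) _
  have hS : 0 < ∑ i, x i ^ 2 := by
    refine Finset.sum_pos (fun i _ => hpos i) ?_
    exact ⟨⟨0, hd⟩, Finset.mem_univ _⟩
  have hR : ∏ i, ‖(x i)⁻¹‖ₑ ^ (2 / d : ℝ) = ENNReal.ofReal ((∏ i, (x i ^ 2) ^ ((1:ℝ) / d))⁻¹) := by
    rw [← Finset.prod_inv_distrib, ENNReal.ofReal_prod_of_nonneg]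
    · refine Finset.prod_congr rfl fun i _ => ?_
      rw [Real.enorm_eq_ofReal_abs, ENNReal.ofReal_rpow_of_nonneg (abs_nonneg _) (by positivity)]
      congr 1
      rw [abs_inv, Real.inv_rpow (abs_nonneg _)]
      congr 1
      rw [← sq_abs, ← Real.rpow_natCast, ← Real.rpow_mul (abs_nonneg _)]
      congr 1
      push_cast
      ring
    · intro i _
      exact inv_nonneg.2 (Real.rpow_nonneg (sq_nonneg _) _)
  rw [hR]
  have hL : (d : ℝ≥0∞) / ENNReal.ofReal (∑ i, x i ^ 2) = ENNReal.ofReal (d / ∑ i, x i ^ 2) := by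
    rw [ENNReal.ofReal_div_of_pos hS, ENNReal.ofReal_natCast]
  rw [hL]
  apply ENNReal.ofReal_le_ofReal
  have hdS : (d:ℝ) / ∑ i, x i ^ 2 = (1 / (d:ℝ) * ∑ i, x i ^ 2)⁻¹ := by
    rw [mul_inv, one_div, inv_inv, div_eq_mul_inv]
  rw [hdS]
  exact inv_anti₀ hP hag

lemma proj_inv (W : Submodule ℝ E) (hW : 3 ≤ finrank ℝ W) :
    ∫⁻ a, (finrank ℝ W : ℝ≥0∞) / ENNReal.ofReal (pn W a ^ 2) ∂(stdGaussian E) ≤ K1 := by
  have hd' : (0:ℝ) < finrank ℝ W := by
    have : 0 < finrank ℝ W := by omega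
    exact_mod_cast this
  have h3 : (3:ℝ) ≤ finrank ℝ W := by exact_mod_cast hW
  rw [proj_lintegral W (fun y => (finrank ℝ W : ℝ≥0∞) / ENNReal.ofReal y) (by fun_prop)]
  have hne : ∀ᵐ x : Fin (finrank ℝ W) → ℝ ∂(Measure.pi fun _ => g1), ∀ i, x i ≠ 0 := by
    rw [ae_all_iff]
    intro i
    have h := (measurePreserving_eval (fun _ : Fin (finrank ℝ W) => g1) i).quasiMeasurePreserving.ae
      (p := fun y : ℝ => y ≠ 0) ?_
    · exact h
    · have hna := nullSingletonClass_gaussianReal (μ := 0) (v := 1) one_ne_zero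
      exact (Set.countable_singleton (0:ℝ)).ae_notMem g1
  have hle : ∫⁻ x : Fin (finrank ℝ W) → ℝ, (finrank ℝ W : ℝ≥0∞) / ENNReal.ofReal (∑ i, x i ^ 2)
      ∂(Measure.pi fun _ => g1) ≤ ∫⁻ x : Fin (finrank ℝ W) → ℝ, ∏ i, ‖(x i)⁻¹‖ₑ ^ (2 / finrank ℝ W : ℝ)
      ∂(Measure.pi fun _ => g1) := by
    refine lintegral_mono_ae ?_
    filter_upwards [hne] with x hx
    exact amgm (by omega) x hx
  refine hle.trans ?_
  rw [pi_prod (fun y => ‖y⁻¹‖ₑ ^ (2 / finrank ℝ W : ℝ)) (by fun_prop)]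
  have hpos : (0:ℝ) < 2 / finrank ℝ W := by positivity
  have hle2 := eLpNorm'_le_eLpNorm'_of_exponent_le (p := 2 / finrank ℝ W) (q := 2 / 3)
    (f := fun x : ℝ => x⁻¹) hpos (by
      rw [div_le_div_iff₀ hd' (by norm_num)]
      linarith) g1 (by fun_prop)
  unfold K1
  refine le_trans (le_of_eq ?_) (pow_le_pow_left' hle2 2)
  rw [eLpNorm'_eq_lintegral_enorm, ← ENNReal.rpow_natCast, ← ENNReal.rpow_natCast, ← ENNReal.rpow_mul]
  congr 1
  push_cast
  field_simp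

end Pool.Agent.X166.GP
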