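import Pool.Agent.X166.GP.A

set_option autoImplicit false

noncomputable section

open MeasureTheory ProbabilityTheory Module
open scoped ENNReal NNReal RealInnerProductSpace

namespace Pool.Agent.X166.GP

variable {E : Type*} [NormedAddCommGroup E] [InnerProductSpace ℝ E]
variable {ι : Type*}

/-- the span of the rows in `T` -/
def sp (T : Finset ι) (r : ι → E) : Submodule ℝ E := Submodule.span ℝ (r '' (T : Set ι))

/-- the distance of `a` to the span of the rows in `T` -/
def dd (T : Finset ι) (r : ι → E) (a : E) : ℝ := Metric.infDist a (sp T r : Set E)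

lemma dd_nonneg (T : Finset ι) (r : ι → E) (a : E) : 0 ≤ dd T r a := Metric.infDist_nonneg

lemma mem_sp {T : Finset ι} {r : ι → E} {i : ι} (hi : i ∈ T) : r i ∈ sp T r :=
  Submodule.subset_span ⟨i, hi, rfl⟩

lemma infDist_add (U : Submodule ℝ E) (x u : E) (hu : u ∈ U) :
    Metric.infDist (x + u) (U : Set E) = Metric.infDist x (U : Set E) := by
  have key : ∀ (x u : E), u ∈ U → Metric.infDist x (U : Set E) ≤ Metric.infDist (x + u) (U : Set E) := by
    intro x u hu
    rw [Metric.le_infDist ⟨0, U.zero_mem⟩]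
    intro y hy
    have h := Metric.infDist_le_dist_of_mem (x := x) (U.sub_mem hy hu : y - u ∈ (U : Set E))
    refine h.trans (le_of_eq ?_)
    rw [dist_eq_norm, dist_eq_norm]
    congr 1
    abel
  refine le_antisymm ?_ (key x u hu)
  have h := key (x + u) (-u) (U.neg_mem hu)
  rwa [add_neg_cancel_right] at h

lemma infDist_smul_le (U : Submodule ℝ E) (x : E) {l : ℝ} (hl : 0 ≤ l) :
    Metric.infDist (l • x) (U : Set E) ≤ l * Metric.infDist x (U : Set E) := by
  rcases hl.eq_or_lt with rfl | hl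
  · rw [zero_smul, zero_mul, Metric.infDist_zero_of_mem U.zero_mem]
  · rw [← div_le_iff₀' hl, Metric.le_infDist ⟨0, U.zero_mem⟩]
    intro y hy
    rw [div_le_iff₀' hl]
    refine (Metric.infDist_le_dist_of_mem (U.smul_mem l hy)).trans (le_of_eq ?_)
    rw [dist_eq_norm, dist_eq_norm, ← smul_sub, norm_smul, Real.norm_of_nonneg hl.le]

lemma inner_le_infDist (U : Submodule ℝ E) (n a : E) (hn : ‖n‖ = 1) (hU : ∀ u ∈ U, ⟪n, u⟫ = 0) :
    |⟪n, a⟫| ≤ Metric.infDist a (U : Set E) := by
  rw [Metric.le_infDist ⟨0, U.zero_mem⟩]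
  intro y hy
  have h1 : ⟪n, a⟫ = ⟪n, a - y⟫ := by rw [inner_sub_right, hU y hy, sub_zero]
  rw [h1, dist_eq_norm]
  refine (abs_real_inner_le_norm _ _).trans ?_
  rw [hn, one_mul]

/-- apply `O` to the rows in `B` -/
def act [DecidableEq ι] (O : E → E) (B : Finset ι) (r : ι → E) : ι → E :=
  fun i => if i ∈ B then O (r i) else r i

lemma dd_act [DecidableEq ι] (O : E ≃ₗᵢ[ℝ] E) (T B : Finset ι) (r : ι → E) (x : E)
    (hO : ∀ i ∈ T, i ∉ B → O (r i) = r i) : dd T (act O B r) (O x) = dd T r x := by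
  unfold dd
  have h1 : (act O B r) '' (T : Set ι) = O '' (r '' (T : Set ι)) := by
    rw [Set.image_image]
    refine Set.image_congr fun i hi => ?_
    unfold act
    by_cases h : i ∈ B
    · rw [if_pos h]
    · rw [if_neg h, hO i hi h]
  have h2 : (sp T (act O B r) : Set E) = O '' (sp T r : Set E) := by
    unfold sp
    rw [h1]
    have h3 := Submodule.map_span (O.toLinearEquiv : E →ₗ[ℝ] E) (r '' (T : Set ι))
    have h4 := congrArg (fun S : Submodule ℝ E => (S : Set E)) h3
    simp only [Submodule.map_coe] at h4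
    exact h4.symm
  rw [h2]
  exact Metric.infDist_image O.isometry

section fin

variable [FiniteDimensional ℝ E]

/-- comparison of the distances of two points by a reflection -/
lemma compare [DecidableEq ι] (T B : Finset ι) (r : ι → E) (a a' : E) {l : ℝ} (hl : 0 ≤ l)
    (h : pn (sp (T \ B) r)ᗮ a = l * pn (sp (T \ B) r)ᗮ a') :
    ∃ O : E ≃ₗᵢ[ℝ] E, ∀ r' : ι → E, (∀ i, i ∉ B → r' i = r i) →
      dd T (act O B r') a ≤ l * dd T r' a' := by
  set V := sp (T \ B) r with hV
  set P : E → E := fun x => ((Vᗮ).orthogonalProjectionOnto x : E) with hP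
  have hPmem : ∀ x, P x ∈ Vᗮ := fun x => ((Vᗮ).orthogonalProjectionOnto x).2
  have hsub : ∀ x, x - P x ∈ V := by
    intro x
    have h1 := Submodule.sub_starProjection_mem_orthogonal (K := Vᗮ) x
    rw [Submodule.orthogonal_orthogonal] at h1
    exact h1
  have hnorm : ‖P a‖ = ‖l • P a'‖ := by
    rw [norm_smul, Real.norm_of_nonneg hl]
    exact h
  set O : E ≃ₗᵢ[ℝ] E := (ℝ ∙ (P a - l • P a'))ᗮ.reflection with hO
  have hOa : O (P a) = l • P a' := by
    rw [hO]
    exact Submodule.reflection_sub hnorm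
  have hOfix : ∀ v ∈ V, O v = v := by
    intro v hv
    rw [hO, Submodule.reflection_eq_self_iff, Submodule.mem_orthogonal_singleton_iff_inner_right]
    have h1 : P a - l • P a' ∈ Vᗮ := Submodule.sub_mem _ (hPmem a) (Submodule.smul_mem _ _ (hPmem a'))
    exact (Submodule.mem_orthogonal' V _).1 h1 v hv
  refine ⟨O, fun r' hr' => ?_⟩
  have hle : ∀ r'' : ι → E, (∀ i, i ∉ B → r'' i = r i) → V ≤ sp T r'' := by
    intro r'' hr''
    rw [hV]
    unfold sp
    rw [Submodule.span_le]
    rintro _ ⟨i, hi, rfl⟩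
    rw [Finset.mem_coe, Finset.mem_sdiff] at hi
    rw [← hr'' i hi.2]
    exact Submodule.subset_span ⟨i, hi.1, rfl⟩
  have hred : ∀ (r'' : ι → E) (x : E), (∀ i, i ∉ B → r'' i = r i) → dd T r'' x = dd T r'' (P x) := by
    intro r'' x hr''
    have h1 := infDist_add (sp T r'') (P x) (x - P x) (hle r'' hr'' (hsub x))
    rw [add_sub_cancel] at h1
    exact h1
  have hact : ∀ i, i ∉ B → act O B r' i = r i := by
    intro i hi
    unfold act
    rw [if_neg hi, hr' i hi]
  rw [hred _ a hact, hred r' a' hr']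
  have h1 : P a = O (O (P a)) := by
    rw [hO, Submodule.reflection_reflection]
  rw [h1, dd_act O T B r' (O (P a)), hOa]
  · exact infDist_smul_le _ _ hl
  · intro i hi hiB
    rw [hr' i hiB]
    refine hOfix _ ?_
    rw [hV]
    exact mem_sp (Finset.mem_sdiff.2 ⟨hi, hiB⟩)

lemma exists_normal (U : Submodule ℝ E) (hU : finrank ℝ U < finrank ℝ E) :
    ∃ n : E, ‖n‖ = 1 ∧ ∀ u ∈ U, ⟪n, u⟫ = 0 := by
  have h1 := U.finrank_add_finrank_orthogonal
  have h2 : 0 < finrank ℝ Uᗮ := by omega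
  rw [finrank_pos_iff_exists_ne_zero] at h2
  obtain ⟨v, hv⟩ := h2
  have hv' : (v : E) ≠ 0 := by simpa using hv
  refine ⟨(‖(v:E)‖)⁻¹ • (v : E), by rw [norm_smul, norm_inv, norm_norm, inv_mul_cancel₀ (norm_ne_zero_iff.2 hv')], fun u hu => ?_⟩
  rw [real_inner_smul_left]
  have := (Submodule.mem_orthogonal' U _).1 v.2 u hu
  rw [this, mul_zero]

omit [FiniteDimensional ℝ E] in
lemma finrank_sp (T : Finset ι) (r : ι → E) : finrank ℝ (sp T r) ≤ T.card := by
  classical
  unfold sp
  have h := finrank_span_finset_le_card (R := ℝ) (T.image r)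
  rw [Finset.coe_image] at h
  exact h.trans Finset.card_image_le

variable [MeasurableSpace E] [BorelSpace E]

lemma near_le (U : Submodule ℝ E) (hU : finrank ℝ U < finrank ℝ E) {s : ℝ} (hs : 0 ≤ s) :
    stdGaussian E {a | Metric.infDist a (U : Set E) ≤ s} ≤ ENNReal.ofReal s := by
  obtain ⟨n, hn, hnU⟩ := exists_normal U hU
  refine (measure_mono ?_).trans (strip_le hn hs)
  intro a ha
  exact (inner_le_infDist U n a hn hnU).trans ha

lemma near_ge (U : Submodule ℝ E) (hU : finrank ℝ U + 1 = finrank ℝ E) {s : ℝ} (hs : 0 ≤ s)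
    (hs1 : s ≤ 1) :
    ENNReal.ofReal (s / 4) ≤ stdGaussian E {a | Metric.infDist a (U : Set E) ≤ s} := by
  obtain ⟨n, hn, hnU⟩ := exists_normal U (by omega)
  refine (strip_ge hn hs hs1).trans (measure_mono ?_)
  intro a ha
  have hle : U ≤ (ℝ ∙ n)ᗮ := by
    intro u hu
    rw [Submodule.mem_orthogonal_singleton_iff_inner_right]
    exact hnU u hu
  have hn0 : n ≠ 0 := by
    rintro rfl
    simp at hn
  have hfin : finrank ℝ U = finrank ℝ (ℝ ∙ n)ᗮ := by
    have h1 := (ℝ ∙ n).finrank_add_finrank_orthogonal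
    rw [finrank_span_singleton hn0] at h1
    omega
  have heq : U = (ℝ ∙ n)ᗮ := Submodule.eq_of_le_of_finrank_eq hle hfin
  have hmem : a - ⟪n, a⟫ • n ∈ U := by
    rw [heq, Submodule.mem_orthogonal_singleton_iff_inner_right, inner_sub_right, inner_smul_right,
      real_inner_self_eq_norm_sq, hn]
    ring
  refine (Metric.infDist_le_dist_of_mem (hmem : a - ⟪n, a⟫ • n ∈ (U : Set E))).trans ?_
  rw [dist_eq_norm, sub_sub_cancel, norm_smul, hn, mul_one]
  exact ha

end fin

section meas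

variable [Fintype ι] [MeasurableSpace E] [BorelSpace E] [SecondCountableTopology E]

lemma dd_eq (T : Finset ι) (r : ι → E) (a : E) :
    dd T r a = ⨅ q : ι → ℚ, ‖a - ∑ i ∈ T, (q i : ℝ) • r i‖ := by
  classical
  have hbdd : BddBelow (Set.range fun q : ι → ℚ => ‖a - ∑ i ∈ T, (q i : ℝ) • r i‖) :=
    ⟨0, by rintro _ ⟨q, rfl⟩; exact norm_nonneg _⟩
  apply le_antisymm
  · refine le_ciInf fun q => ?_
    rw [← dist_eq_norm]
    refine Metric.infDist_le_dist_of_mem ?_
    exact Submodule.sum_mem _ fun i hi => Submodule.smul_mem _ _ (mem_sp hi)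
  · unfold dd
    rw [Metric.le_infDist ⟨0, Submodule.zero_mem _⟩]
    have hall : ∀ c : ι → ℝ, (⨅ q : ι → ℚ, ‖a - ∑ i ∈ T, (q i : ℝ) • r i‖) ≤
        ‖a - ∑ i ∈ T, c i • r i‖ := by
      have hdense : DenseRange (Pi.map (fun (_ : ι) (q : ℚ) => (q : ℝ))) :=
        DenseRange.piMap fun _ => Rat.denseRange_cast
      have hcl : IsClosed {c : ι → ℝ | (⨅ q : ι → ℚ, ‖a - ∑ i ∈ T, (q i : ℝ) • r i‖) ≤
          ‖a - ∑ i ∈ T, c i • r i‖} := isClosed_le continuous_const (by fun_prop)
      intro c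
      have h := hdense.induction_on (p := fun c : ι → ℝ => (⨅ q : ι → ℚ, ‖a - ∑ i ∈ T, (q i : ℝ) • r i‖) ≤
          ‖a - ∑ i ∈ T, c i • r i‖) c hcl (fun q => ciInf_le hbdd q)
      exact h
    intro y hy
    have hy' : y ∈ sp T r := hy
    unfold sp at hy'
    rw [Submodule.mem_span_image_finset_iff_exists_fun'] at hy'
    obtain ⟨f, rfl⟩ := hy'
    rw [dist_eq_norm]
    exact hall f

lemma meas_dd (T : Finset ι) : Measurable fun p : (ι → E) × E => dd T p.1 p.2 := by
  have h : (fun p : (ι → E) × E => dd T p.1 p.2) =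
      fun p => ⨅ q : ι → ℚ, ‖p.2 - ∑ i ∈ T, (q i : ℝ) • p.1 i‖ := by
    ext p
    exact dd_eq T p.1 p.2
  rw [h]
  refine Measurable.iInf fun q => ?_
  fun_prop

end meas

end Pool.Agent.X166.GP
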