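import Pool.Agent.X166.GP.B

set_option autoImplicit false

noncomputable section

open MeasureTheory ProbabilityTheory Module
open scoped ENNReal NNReal RealInnerProductSpace

namespace Pool.Agent.X166.GP

section pi

variable {ι : Type*} [Fintype ι] [DecidableEq ι] {X : Type*} [MeasurableSpace X]
  (γ : Measure X) [IsProbabilityMeasure γ]

/-- integrating out some coordinates first -/
lemma lint_marg (s : Finset ι) (F : (ι → X) → ℝ≥0∞) (hF : Measurable F) :
    ∫⁻ r, F r ∂(Measure.pi fun _ => γ) =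
      ∫⁻ r, (∫⋯∫⁻_s, F ∂(fun _ => γ)) r ∂(Measure.pi fun _ => γ) := by
  refine lintegral_eq_of_lmarginal_eq s hF (hF.lmarginal _) ?_
  have h : ∀ G : (ι → X) → ℝ≥0∞, (∫⋯∫⁻_s, (∫⋯∫⁻_s, G ∂(fun _ => γ)) ∂(fun _ => γ)) =
      ∫⋯∫⁻_s, G ∂(fun _ => γ) := by
    intro G
    ext1 x
    rw [lmarginal]
    have h2 : ∀ y, (∫⋯∫⁻_s, G ∂(fun _ => γ)) (Function.updateFinset x s y) = (∫⋯∫⁻_s, G ∂(fun _ => γ)) x := by
      intro y
      refine lmarginal_congr _ G fun i hi => ?_
      simp [Function.updateFinset, hi]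
    simp_rw [h2]
    simp
  exact (h F).symm

/-- one coordinate -/
lemma lint_one (o : ι) (F : (ι → X) → ℝ≥0∞) (hF : Measurable F) :
    ∫⁻ r, F r ∂(Measure.pi fun _ => γ) =
      ∫⁻ r, ∫⁻ a, F (Function.update r o a) ∂γ ∂(Measure.pi fun _ => γ) := by
  rw [lint_marg γ {o} F hF]
  refine lintegral_congr fun r => ?_
  rw [lmarginal_singleton]

/-- a factor which does not depend on the coordinates in `s` comes out -/
lemma marg_mul (s : Finset ι) (F G : (ι → X) → ℝ≥0∞) (hF : Measurable F)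
    (hG : ∀ x y : ι → X, (∀ i, i ∉ s → x i = y i) → G x = G y) (x : ι → X) :
    (∫⋯∫⁻_s, (fun r => F r * G r) ∂(fun _ => γ)) x = (∫⋯∫⁻_s, F ∂(fun _ => γ)) x * G x := by
  rw [lmarginal, lmarginal]
  have h : ∀ y, G (Function.updateFinset x s y) = G x := by
    intro y
    refine hG _ _ fun i hi => ?_
    simp [Function.updateFinset, hi]
  simp_rw [h]
  rw [lintegral_mul_const _ (by
    exact hF.comp measurable_updateFinset)]

/-- the key factorisation: `F` does not depend on `B'`, `G` not on `B` -/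
lemma lint_two (B B' : Finset ι) (F G : (ι → X) → ℝ≥0∞) (hF : Measurable F)
    (hG : Measurable G) (hF' : ∀ x y : ι → X, (∀ i, i ∉ B' → x i = y i) → F x = F y)
    (hG' : ∀ x y : ι → X, (∀ i, i ∉ B → x i = y i) → G x = G y) :
    ∫⁻ r, F r * G r ∂(Measure.pi fun _ => γ) =
      ∫⁻ r, (∫⋯∫⁻_B, F ∂(fun _ => γ)) r * (∫⋯∫⁻_B', G ∂(fun _ => γ)) r ∂(Measure.pi fun _ => γ) := by
  rw [lint_marg γ B' (fun r => F r * G r) (hF.mul hG)]
  have h1 : (∫⋯∫⁻_B', (fun r => F r * G r) ∂(fun _ => γ)) =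
      fun r => F r * (∫⋯∫⁻_B', G ∂(fun _ => γ)) r := by
    ext1 x
    have h := marg_mul γ B' G F hG hF' x
    simp_rw [mul_comm (F _)]
    exact h
  have hm : Measurable (∫⋯∫⁻_B', G ∂(fun _ => γ)) := hG.lmarginal _
  calc ∫⁻ r, (∫⋯∫⁻_B', (fun r => F r * G r) ∂(fun _ => γ)) r ∂(Measure.pi fun _ => γ)
      = ∫⁻ r, F r * (∫⋯∫⁻_B', G ∂(fun _ => γ)) r ∂(Measure.pi fun _ => γ) := by
        refine lintegral_congr fun r => ?_
        rw [h1]
    _ = _ := by
        rw [lint_marg γ B (fun r => F r * (∫⋯∫⁻_B', G ∂(fun _ => γ)) r) (hF.mul hm)]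
        refine lintegral_congr fun r => ?_
        refine marg_mul γ B F _ hF (fun x y hxy => ?_) r
        rw [lmarginal, lmarginal]
        refine lintegral_congr fun z => ?_
        refine hG' _ _ fun i hi => ?_
        by_cases hi' : i ∈ B'
        · simp [Function.updateFinset, hi']
        · simp [Function.updateFinset, hi', hxy i hi]

end pi

end Pool.Agent.X166.GP
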