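import Pool.Agent.X166.GP.C

set_option autoImplicit false

noncomputable section

open MeasureTheory ProbabilityTheory Module
open scoped ENNReal NNReal RealInnerProductSpace

namespace Pool.Agent.X166.GP

variable {E : Type*} [NormedAddCommGroup E] [InnerProductSpace ℝ E] [FiniteDimensional ℝ E]
  [MeasurableSpace E] [BorelSpace E]
variable {ι : Type*} [Fintype ι] [DecidableEq ι]

open Classical in
/-- the indicator of the event that `a` is near the span of the rows in `T` -/
def ind (T : Finset ι) (t : ℝ) (r : ι → E) (a : E) : ℝ≥0∞ := if dd T r a ≤ t then 1 else 0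

omit [FiniteDimensional ℝ E] [MeasurableSpace E] [BorelSpace E] [Fintype ι] [DecidableEq ι] in
lemma ind_pos {T : Finset ι} {t : ℝ} {r : ι → E} {a : E} (h : dd T r a ≤ t) : ind T t r a = 1 := by
  unfold ind
  exact if_pos h

omit [FiniteDimensional ℝ E] [MeasurableSpace E] [BorelSpace E] [Fintype ι] [DecidableEq ι] in
lemma ind_neg {T : Finset ι} {t : ℝ} {r : ι → E} {a : E} (h : ¬ dd T r a ≤ t) : ind T t r a = 0 := by
  unfold ind
  exact if_neg h

omit [DecidableEq ι] in
lemma meas_ind (T : Finset ι) (t : ℝ) :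
    Measurable fun p : (ι → E) × E => ind T t p.1 p.2 := by
  classical
  unfold ind
  exact Measurable.ite (measurableSet_le (meas_dd T) measurable_const) measurable_const measurable_const

omit [DecidableEq ι] in
lemma meas_ind_of {Ω : Type*} [MeasurableSpace Ω] (T : Finset ι) (t : ℝ) {f : Ω → (ι → E)} {g : Ω → E}
    (hf : Measurable f) (hg : Measurable g) : Measurable fun ω => ind T t (f ω) (g ω) := by
  have h2 : Measurable fun ω => (f ω, g ω) := hf.prodMk hg
  have h3 := Measurable.comp (meas_ind (E := E) T t) h2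
  exact h3

/-- the probability over the rows in `B` that `a` is near the span of the rows in `T` -/
def qq (T B : Finset ι) (t : ℝ) (a : E) (r : ι → E) : ℝ≥0∞ :=
  ∫⁻ b : (B → E), ind T t (Function.updateFinset r B b) a ∂(Measure.pi fun _ => stdGaussian E)

lemma qq_compare (T B : Finset ι) (r : ι → E) (a a' : E) {l t s : ℝ} (hl : 0 ≤ l)
    (h : pn (sp (T \ B) r)ᗮ a = l * pn (sp (T \ B) r)ᗮ a') (hs : l * t ≤ s) :
    qq T B t a' r ≤ qq T B s a r := by
  obtain ⟨O, hO⟩ := compare T B r a a' hl h
  have hmp : MeasurePreserving (fun (b : B → E) (i : B) => O (b i)) (Measure.pi fun _ => stdGaussian E)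
      (Measure.pi fun _ => stdGaussian E) := by
    refine measurePreserving_pi _ _ fun i => ?_
    exact ⟨O.continuous.measurable, stdGaussian_map O⟩
  have key : ∀ F : (B → E) → ℝ≥0∞, Measurable F →
      ∫⁻ b, F (fun i => O (b i)) ∂(Measure.pi fun _ => stdGaussian E) =
        ∫⁻ b, F b ∂(Measure.pi fun _ => stdGaussian E) := fun F hF => hmp.lintegral_comp hF
  have hmeas : Measurable fun b : (B → E) => ind T s (Function.updateFinset r B b) a :=
    meas_ind_of T s measurable_updateFinset measurable_const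
  unfold qq
  refine le_trans ?_ (le_of_eq (key _ hmeas))
  refine lintegral_mono fun b => ?_
  simp only
  by_cases hb : dd T (Function.updateFinset r B b) a' ≤ t
  · have h1 := hO (Function.updateFinset r B b) (fun i hi => by simp [Function.updateFinset, hi])
    have h2 : act O B (Function.updateFinset r B b) = Function.updateFinset r B (fun i => O (b i)) := by
      ext1 i
      unfold act
      by_cases hi : i ∈ B
      · simp [Function.updateFinset, hi]
      · simp [Function.updateFinset, hi]
    rw [h2] at h1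
    have h3 : dd T (Function.updateFinset r B (fun i => O (b i))) a ≤ s :=
      h1.trans ((mul_le_mul_of_nonneg_left hb hl).trans hs)
    rw [ind_pos hb, ind_pos h3]
  · rw [ind_neg hb]
    exact zero_le

/-- for fixed rows, the event has probability at most `s` -/
lemma lint_ind_le (T : Finset ι) (hT : T.card < finrank ℝ E) (r : ι → E) {s : ℝ} (hs : 0 ≤ s) :
    ∫⁻ a, ind T s r a ∂(stdGaussian E) ≤ ENNReal.ofReal s := by
  have h1 := near_le (sp T r) (lt_of_le_of_lt (finrank_sp _ _) hT) hs
  refine le_trans (le_of_eq ?_) h1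
  have hm : MeasurableSet {a : E | dd T r a ≤ s} := by
    refine measurableSet_le ?_ measurable_const
    exact (Metric.continuous_infDist_pt _).measurable
  have h2 := lintegral_indicator_one (μ := stdGaussian E) hm
  refine Eq.trans ?_ h2
  refine lintegral_congr fun a => ?_
  by_cases h : dd T r a ≤ s
  · rw [ind_pos h, Set.indicator_of_mem (show a ∈ {a : E | dd T r a ≤ s} from h)]
    rfl
  · rw [ind_neg h, Set.indicator_of_notMem (show a ∉ {a : E | dd T r a ≤ s} from h)]

/-- for fixed independent rows, the event has probability at least `s / 4` -/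
lemma lint_ind_ge (T : Finset ι) (r : ι → E) (hT : finrank ℝ (sp T r) + 1 = finrank ℝ E) {s : ℝ}
    (hs : 0 ≤ s) (hs1 : s ≤ 1) :
    ENNReal.ofReal (s / 4) ≤ ∫⁻ a, ind T s r a ∂(stdGaussian E) := by
  have h1 := near_ge (sp T r) hT hs hs1
  refine le_trans h1 (le_of_eq ?_)
  have hm : MeasurableSet {a : E | dd T r a ≤ s} := by
    refine measurableSet_le ?_ measurable_const
    exact (Metric.continuous_infDist_pt _).measurable
  have h2 := lintegral_indicator_one (μ := stdGaussian E) hm
  refine Eq.trans h2.symm ?_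
  refine lintegral_congr fun a => ?_
  by_cases h : dd T r a ≤ s
  · rw [ind_pos h, Set.indicator_of_mem (show a ∈ {a : E | dd T r a ≤ s} from h)]
    rfl
  · rw [ind_neg h, Set.indicator_of_notMem (show a ∉ {a : E | dd T r a ≤ s} from h)]

lemma qq_avg (T B : Finset ι) (hT : T.card < finrank ℝ E) (r : ι → E) {s : ℝ} (hs : 0 ≤ s) :
    ∫⁻ a, qq T B s a r ∂(stdGaussian E) ≤ ENNReal.ofReal s := by
  unfold qq
  rw [lintegral_lintegral_swap]
  · calc ∫⁻ b : (B → E), ∫⁻ a, ind T s (Function.updateFinset r B b) a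
          ∂(stdGaussian E) ∂(Measure.pi fun _ => stdGaussian E)
        ≤ ∫⁻ _ : (B → E), ENNReal.ofReal s ∂(Measure.pi fun _ => stdGaussian E) :=
          lintegral_mono fun b => lint_ind_le T hT _ hs
      _ = ENNReal.ofReal s := by simp
  · exact (meas_ind_of T s (measurable_updateFinset.comp measurable_snd) measurable_fst).aemeasurable

lemma meas_pn (W : Submodule ℝ E) : Measurable (pn W) := by
  unfold pn
  fun_prop

lemma qq_le (T B : Finset ι) (hT : T.card < finrank ℝ E) (r : ι → E) {t : ℝ} (ht : 0 ≤ t) (a : E)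
    (hR : 0 < pn (sp (T \ B) r)ᗮ a) (hW : 0 < finrank ℝ ((sp (T \ B) r)ᗮ : Submodule ℝ E)) :
    qq T B t a r ≤ ENNReal.ofReal (2 * (t * (Real.sqrt (2 * finrank ℝ ((sp (T \ B) r)ᗮ : Submodule ℝ E)) /
      pn (sp (T \ B) r)ᗮ a))) := by
  set W : Submodule ℝ E := (sp (T \ B) r)ᗮ with hWdef
  set d := finrank ℝ W with hd
  set R := pn W a with hRdef
  set s := t * (Real.sqrt (2 * d) / R) with hs
  have hs0 : 0 ≤ s := by positivity
  have hS : MeasurableSet {g : E | pn W g ^ 2 ≤ 2 * d} :=
    measurableSet_le ((meas_pn W).pow_const 2) measurable_const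
  have h1 : ∀ g ∈ {g : E | pn W g ^ 2 ≤ 2 * d}, qq T B t a r ≤ qq T B s g r := by
    intro g hg
    refine qq_compare T B r g a (l := pn W g / R) (div_nonneg (norm_nonneg _) hR.le) ?_ ?_
    · rw [← hWdef, ← hRdef, div_mul_cancel₀ _ hR.ne']
    · rw [hs, mul_comm]
      refine mul_le_mul_of_nonneg_left ?_ ht
      refine div_le_div_of_nonneg_right ?_ hR.le
      exact Real.le_sqrt_of_sq_le hg
  have h2 := qq_avg T B hT r hs0
  have h3 : qq T B t a r * stdGaussian E {g : E | pn W g ^ 2 ≤ 2 * d} ≤ ENNReal.ofReal s := by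
    calc qq T B t a r * stdGaussian E {g : E | pn W g ^ 2 ≤ 2 * d}
        = ∫⁻ _ in {g : E | pn W g ^ 2 ≤ 2 * d}, qq T B t a r ∂(stdGaussian E) := by
          rw [setLIntegral_const]
      _ ≤ ∫⁻ g in {g : E | pn W g ^ 2 ≤ 2 * d}, qq T B s g r ∂(stdGaussian E) :=
          setLIntegral_mono' hS h1
      _ ≤ ∫⁻ g, qq T B s g r ∂(stdGaussian E) := setLIntegral_le_lintegral _ _
      _ ≤ _ := h2
  have h4 := proj_half W hW
  have h5 : qq T B t a r * (1 / 2) ≤ ENNReal.ofReal s :=
    (mul_le_mul' le_rfl h4).trans h3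
  rw [ENNReal.ofReal_mul (by norm_num)]
  calc qq T B t a r = 2 * (qq T B t a r * (1 / 2)) := by
        rw [mul_comm (qq T B t a r), ← mul_assoc, one_div, ENNReal.mul_inv_cancel (by norm_num) (by norm_num),
          one_mul]
    _ ≤ 2 * ENNReal.ofReal s := mul_le_mul' le_rfl h5
    _ = _ := by simp

end Pool.Agent.X166.GP
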