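import Mathlib

set_option autoImplicit false

noncomputable section

open MeasureTheory ProbabilityTheory

namespace Pool.Agent.X166.GP

/-- the law of an `N × M` matrix with independent standard Gaussian entries -/
def gaussianMatrix (N M : ℕ) : Measure (Fin N → Fin M → ℝ) :=
  Measure.pi fun _ => Measure.pi fun _ => gaussianReal 0 1

/-- `σ_M(A_S)`: the smallest value of `‖A_S x‖` over the unit vectors `x` of `ℝ^M`
(this is the `M`-th largest singular value of `A_S`, and `0` if `A_S` has fewer than `M` rows) -/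
def sigmaMin {N M : ℕ} (A : Fin N → Fin M → ℝ) (S : Finset (Fin N)) : ℝ :=
  ⨅ x : {x : Fin M → ℝ // ∑ j, x j ^ 2 = 1}, Real.sqrt (∑ i ∈ S, (∑ j, A i j * x.1 j) ^ 2)

/-- the rank of `A_{Sᶜ}` -/
def rankCompl {N M : ℕ} (A : Fin N → Fin M → ℝ) (S : Finset (Fin N)) : ℕ :=
  Matrix.rank (Matrix.of fun (i : {i : Fin N // i ∉ S}) (j : Fin M) => A i j)

/-- `ω(A)`: the minimum of `σ_M(A_S)` over all `S` with `rank A_{Sᶜ} < M` -/
def omega {N M : ℕ} (A : Fin N → Fin M → ℝ) : ℝ :=
  sInf {s | ∃ S : Finset (Fin N), rankCompl A S < M ∧ s = sigmaMin A S}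

/-- the largest Euclidean norm `max_k ‖A_k‖` of a row -/
def maxRow {N M : ℕ} (A : Fin N → Fin M → ℝ) : ℝ := ⨆ k, Real.sqrt (∑ j, A k j ^ 2)

end Pool.Agent.X166.GP
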