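import Pool.Agent.X166.GP.P

set_option autoImplicit false

noncomputable section

open MeasureTheory ProbabilityTheory Module
open scoped ENNReal NNReal RealInnerProductSpace

namespace Pool.Agent.X166.GP

variable {E : Type*} [NormedAddCommGroup E] [InnerProductSpace ℝ E] [FiniteDimensional ℝ E]
  [MeasurableSpace E] [BorelSpace E]
variable {ι : Type*} [Fintype ι] [DecidableEq ι]

/-- the independent random rows -/
abbrev rows (ι : Type*) [Fintype ι] (E : Type*) [NormedAddCommGroup E] [InnerProductSpace ℝ E]
    [FiniteDimensional ℝ E] [MeasurableSpace E] : Measure (ι → E) := Measure.pi fun _ => stdGaussian E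

lemma ind_update (T : Finset ι) (t : ℝ) {o : ι} (ho : o ∉ T) (r : ι → E) (a b : E) :
    ind T t (Function.update r o b) a = ind T t r a := by
  refine ind_congr (fun i hi => ?_) t a
  have : i ≠ o := by
    rintro rfl
    exact ho hi
  exact Function.update_of_ne this _ _

lemma single_le (T : Finset ι) (hT : T.card < finrank ℝ E) {o : ι} (ho : o ∉ T) {s : ℝ} (hs : 0 ≤ s) :
    rows ι E {r | dd T r (r o) ≤ s} ≤ ENNReal.ofReal s := by
  have hF : Measurable fun r : ι → E => ind T s r (r o) :=
    meas_ind_of T s measurable_id (measurable_pi_apply o)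
  have hm : MeasurableSet {r : ι → E | dd T r (r o) ≤ s} := by
    refine measurableSet_le ?_ measurable_const
    have h2 : Measurable fun r : ι → E => (r, r o) := measurable_id.prodMk (measurable_pi_apply o)
    have h3 := Measurable.comp (meas_dd (E := E) T) h2
    exact h3
  calc rows ι E {r | dd T r (r o) ≤ s} = ∫⁻ r, ind T s r (r o) ∂(rows ι E) := by
        rw [← lintegral_indicator_one hm]
        refine lintegral_congr fun r => ?_
        by_cases h : dd T r (r o) ≤ s
        · rw [ind_pos h, Set.indicator_of_mem (show r ∈ {r : ι → E | dd T r (r o) ≤ s} from h)]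
          rfl
        · rw [ind_neg h, Set.indicator_of_notMem (show r ∉ {r : ι → E | dd T r (r o) ≤ s} from h)]
    _ = ∫⁻ r, ∫⁻ a, ind T s r a ∂(stdGaussian E) ∂(rows ι E) := by
        rw [lint_one (stdGaussian E) o (fun r => ind T s r (r o)) hF]
        refine lintegral_congr fun r => lintegral_congr fun a => ?_
        rw [Function.update_self, ind_update T s ho]
    _ ≤ ∫⁻ _, ENNReal.ofReal s ∂(rows ι E) := lintegral_mono fun r => lint_ind_le T hT r hs
    _ = ENNReal.ofReal s := by simp

/-- almost surely no row is in the span of fewer than `dim E` other rows -/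
lemma ae_gen : ∀ᵐ r ∂(rows ι E), ∀ (T : Finset ι) (o : ι), o ∉ T → T.card < finrank ℝ E →
    0 < dd T r (r o) := by
  rw [ae_all_iff]
  intro T
  rw [ae_all_iff]
  intro o
  by_cases ho : o ∉ T
  · by_cases hT : T.card < finrank ℝ E
    · have h0 : rows ι E {r | dd T r (r o) ≤ 0} = 0 := by
        have h := single_le T hT ho (le_refl (0:ℝ))
        rw [ENNReal.ofReal_zero] at h
        exact le_antisymm h zero_le
      rw [ae_iff]
      refine measure_mono_null ?_ h0
      intro r hr
      simp only [Set.mem_ofPred_eq] at hr ⊢
      by_contra hcon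
      exact hr fun _ _ => not_le.1 hcon
    · exact ae_of_all _ fun r _ h => absurd h hT
  · exact ae_of_all _ fun r h => absurd h ho

omit [FiniteDimensional ℝ E] [MeasurableSpace E] [BorelSpace E] [Fintype ι] in
lemma indep_of {M : ℕ} {r : ι → E} (hr : ∀ (T : Finset ι) (o : ι), o ∉ T → T.card < M →
    0 < dd T r (r o)) : ∀ T : Finset ι, T.card ≤ M → LinearIndepOn ℝ r (T : Set ι) := by
  intro T
  induction T using Finset.induction_on with
  | empty => intro _; simp
  | insert a s ha ih =>
    intro hT
    rw [Finset.card_insert_of_notMem ha] at hT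
    rw [Finset.coe_insert]
    refine (ih (by omega)).insert ?_
    intro hmem
    have h1 := hr s a ha (by omega)
    have h2 : dd s r (r a) = 0 := Metric.infDist_zero_of_mem hmem
    linarith

omit [FiniteDimensional ℝ E] [MeasurableSpace E] [BorelSpace E] [Fintype ι] in
lemma finrank_of {M : ℕ} {r : ι → E} (hr : ∀ (T : Finset ι) (o : ι), o ∉ T → T.card < M →
    0 < dd T r (r o)) (T : Finset ι) (hT : T.card ≤ M) : finrank ℝ (sp T r) = T.card := by
  have h := indep_of hr T hT
  unfold sp
  have h1 : r '' (T : Set ι) = Set.range (fun i : (T : Set ι) => r i) := by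
    rw [Set.image_eq_range]
  rw [h1, finrank_span_eq_card h]
  simp

end Pool.Agent.X166.GP
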