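import Pool.Agent.X166.GP.D

set_option autoImplicit false

noncomputable section

open MeasureTheory ProbabilityTheory Module
open scoped ENNReal NNReal RealInnerProductSpace

namespace Pool.Agent.X166.GP

variable {E : Type*} [NormedAddCommGroup E] [InnerProductSpace ℝ E] [FiniteDimensional ℝ E]
  [MeasurableSpace E] [BorelSpace E]
variable {ι : Type*} [Fintype ι] [DecidableEq ι]

omit [FiniteDimensional ℝ E] [MeasurableSpace E] [BorelSpace E] [Fintype ι] [DecidableEq ι] in
lemma sp_congr {T : Finset ι} {x y : ι → E} (h : ∀ i ∈ T, x i = y i) : sp T x = sp T y := by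
  unfold sp
  congr 1
  exact Set.image_congr fun i hi => h i hi

omit [FiniteDimensional ℝ E] [MeasurableSpace E] [BorelSpace E] [Fintype ι] [DecidableEq ι] in
lemma dd_congr {T : Finset ι} {x y : ι → E} (h : ∀ i ∈ T, x i = y i) (a : E) : dd T x a = dd T y a := by
  unfold dd
  rw [sp_congr h]

omit [FiniteDimensional ℝ E] [MeasurableSpace E] [BorelSpace E] [Fintype ι] [DecidableEq ι] in
lemma ind_congr {T : Finset ι} {x y : ι → E} (h : ∀ i ∈ T, x i = y i) (t : ℝ) (a : E) :
    ind T t x a = ind T t y a := by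
  by_cases h1 : dd T x a ≤ t
  · have h2 : dd T y a ≤ t := by rwa [← dd_congr h a]
    rw [ind_pos h1, ind_pos h2]
  · have h2 : ¬ dd T y a ≤ t := by rwa [← dd_congr h a]
    rw [ind_neg h1, ind_neg h2]

omit [BorelSpace E] [Fintype ι] in
lemma marg_eq (T B : Finset ι) (t : ℝ) {o : ι} (ho : o ∉ B) (r : ι → E) :
    (∫⋯∫⁻_B, (fun r => ind T t r (r o)) ∂(fun _ => stdGaussian E)) r = qq T B t (r o) r := by
  unfold qq
  rw [lmarginal]
  refine lintegral_congr fun b => ?_
  have h : Function.updateFinset r B b o = r o := by simp [Function.updateFinset, ho]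
  simp only [h]

lemma ofReal_bound {t R : ℝ} {d : ℕ} (ht : 0 < t) (hR : 0 < R) :
    ENNReal.ofReal (2 * (t * (Real.sqrt (2 * d) / R))) * ENNReal.ofReal (2 * (t * (Real.sqrt (2 * d) / R))) =
      ENNReal.ofReal (8 * t ^ 2) * ((d : ℝ≥0∞) / ENNReal.ofReal (R ^ 2)) := by
  have h1 : (d : ℝ≥0∞) / ENNReal.ofReal (R ^ 2) = ENNReal.ofReal (d / R ^ 2) := by
    rw [ENNReal.ofReal_div_of_pos (by positivity), ENNReal.ofReal_natCast]
  rw [h1, ← ENNReal.ofReal_mul (by positivity), ← ENNReal.ofReal_mul (by positivity)]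
  congr 1
  have h2 : Real.sqrt (2 * d) * Real.sqrt (2 * d) = 2 * d := Real.mul_self_sqrt (by positivity)
  have h3 : 2 * (t * (Real.sqrt (2 * d) / R)) * (2 * (t * (Real.sqrt (2 * d) / R))) =
      4 * t ^ 2 * (Real.sqrt (2 * d) * Real.sqrt (2 * d)) / R ^ 2 := by
    field_simp
    ring
  rw [h3, h2]
  ring

/-- **Pair bound.** -/
lemma pair_le (T T' : Finset ι) (hT : T.card < finrank ℝ E) (hT' : T'.card < finrank ℝ E)
    (hC : (T ∩ T').card + 3 ≤ finrank ℝ E) {o : ι} (ho : o ∉ T) (ho' : o ∉ T') {t : ℝ} (ht : 0 < t) :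
    ∫⁻ r : ι → E, ind T t r (r o) * ind T' t r (r o) ∂(Measure.pi fun _ => stdGaussian E) ≤
      ENNReal.ofReal (8 * t ^ 2) * K1 := by
  set B := T \ T' with hB
  set B' := T' \ T with hB'
  have hTB : T \ B = T ∩ T' := by
    rw [hB, Finset.sdiff_sdiff_self_left]
  have hTB' : T' \ B' = T ∩ T' := by
    rw [hB', Finset.sdiff_sdiff_self_left, Finset.inter_comm]
  have hoB : o ∉ B := fun h => ho (Finset.mem_sdiff.1 h).1
  have hoB' : o ∉ B' := fun h => ho' (Finset.mem_sdiff.1 h).1
  have hF : Measurable fun r : ι → E => ind T t r (r o) :=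
    meas_ind_of T t measurable_id (measurable_pi_apply o)
  have hG : Measurable fun r : ι → E => ind T' t r (r o) :=
    meas_ind_of T' t measurable_id (measurable_pi_apply o)
  rw [lint_two (stdGaussian E) B B' (fun r => ind T t r (r o)) (fun r => ind T' t r (r o)) hF hG]
  rotate_left
  · intro x y hxy
    have h1 : x o = y o := hxy o hoB'
    rw [h1]
    refine ind_congr (fun i hi => hxy i fun hi' => ?_) t _
    exact (Finset.mem_sdiff.1 hi').2 hi
  · intro x y hxy
    have h1 : x o = y o := hxy o hoB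
    rw [h1]
    refine ind_congr (fun i hi => hxy i fun hi' => ?_) t _
    exact (Finset.mem_sdiff.1 hi').2 hi
  have hm1 : Measurable (∫⋯∫⁻_B, (fun r : ι → E => ind T t r (r o)) ∂(fun _ => stdGaussian E)) := hF.lmarginal _
  have hm2 : Measurable (∫⋯∫⁻_B', (fun r : ι → E => ind T' t r (r o)) ∂(fun _ => stdGaussian E)) := hG.lmarginal _
  rw [lint_one (stdGaussian E) o (fun r => (∫⋯∫⁻_B, (fun r : ι → E => ind T t r (r o)) ∂(fun _ => stdGaussian E)) r *
    (∫⋯∫⁻_B', (fun r : ι → E => ind T' t r (r o)) ∂(fun _ => stdGaussian E)) r) (hm1.mul hm2)]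
  have hmain : ∀ r : ι → E, ∫⁻ a, (∫⋯∫⁻_B, (fun r : ι → E => ind T t r (r o)) ∂(fun _ => stdGaussian E)) (Function.update r o a) *
      (∫⋯∫⁻_B', (fun r : ι → E => ind T' t r (r o)) ∂(fun _ => stdGaussian E)) (Function.update r o a)
      ∂(stdGaussian E) ≤ ENNReal.ofReal (8 * t ^ 2) * K1 := by
    intro r
    set W : Submodule ℝ E := (sp (T ∩ T') r)ᗮ with hW
    have hsp : ∀ a, sp (T ∩ T') (Function.update r o a) = sp (T ∩ T') r := by
      intro a
      refine sp_congr fun i hi => ?_
      have hio : i ≠ o := by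
        rintro rfl
        exact ho (Finset.mem_inter.1 hi).1
      exact Function.update_of_ne hio _ _
    have hdim : 3 ≤ finrank ℝ W := by
      have h1 : finrank ℝ (sp (T ∩ T') r) + finrank ℝ W = finrank ℝ E :=
        (sp (T ∩ T') r).finrank_add_finrank_orthogonal
      have h2 := finrank_sp (T ∩ T') r
      omega
    have hpt : ∀ a, (∫⋯∫⁻_B, (fun r : ι → E => ind T t r (r o)) ∂(fun _ => stdGaussian E)) (Function.update r o a) *
      (∫⋯∫⁻_B', (fun r : ι → E => ind T' t r (r o)) ∂(fun _ => stdGaussian E)) (Function.update r o a) ≤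
        ENNReal.ofReal (8 * t ^ 2) * ((finrank ℝ W : ℝ≥0∞) / ENNReal.ofReal (pn W a ^ 2)) := by
      intro a
      rw [marg_eq T B t hoB, marg_eq T' B' t hoB']
      rw [Function.update_self]
      by_cases hR : 0 < pn W a
      · have e1 := qq_le T B hT (Function.update r o a) ht.le a
        have e2 := qq_le T' B' hT' (Function.update r o a) ht.le a
        rw [hTB, hsp] at e1
        rw [hTB', hsp] at e2
        refine (mul_le_mul' (e1 hR (lt_of_lt_of_le (by norm_num) hdim)) (e2 hR (lt_of_lt_of_le (by norm_num) hdim))).trans (le_of_eq ?_)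
        exact ofReal_bound ht hR
      · have hR0 : pn W a = 0 := le_antisymm (not_lt.1 hR) (norm_nonneg _)
        rw [hR0]
        have h0 : ENNReal.ofReal ((0:ℝ) ^ 2) = 0 := by simp
        rw [h0]
        have h1 : (finrank ℝ W : ℝ≥0∞) / 0 = ⊤ := by
          apply ENNReal.div_zero
          have : finrank ℝ W ≠ 0 := by omega
          exact_mod_cast this
        rw [h1, ENNReal.mul_top]
        · exact le_top
        · have : 0 < ENNReal.ofReal (8 * t ^ 2) := ENNReal.ofReal_pos.2 (by positivity)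
          exact this.ne'
    refine (lintegral_mono hpt).trans ?_
    rw [lintegral_const_mul]
    · exact mul_le_mul' le_rfl (proj_inv W hdim)
    · have := meas_pn W
      fun_prop
  refine (lintegral_mono hmain).trans ?_
  simp

end Pool.Agent.X166.GP
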