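import Pool.Agent.X166.GP.N

set_option autoImplicit false

noncomputable section

open MeasureTheory ProbabilityTheory Module
open scoped ENNReal NNReal RealInnerProductSpace

namespace Pool.Agent.X166.GP

/-- an integral over several further independent rows -/
lemma lint_prod {ι : Type*} [Fintype ι] [DecidableEq ι] {X : Type*} [MeasurableSpace X]
    (γ : Measure X) [IsProbabilityMeasure γ] (f : (ι → X) → X → ℝ≥0∞)
    (hf : Measurable fun p : (ι → X) × X => f p.1 p.2) (s : Finset ι) :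
    (∀ x y : ι → X, (∀ i, i ∉ s → x i = y i) → f x = f y) →
    ∀ g : (ι → X) → ℝ≥0∞, Measurable g → (∀ x y : ι → X, (∀ i, i ∉ s → x i = y i) → g x = g y) →
    ∫⁻ r, g r * ∏ o ∈ s, f r (r o) ∂(Measure.pi fun _ => γ) =
      ∫⁻ r, g r * (∫⁻ a, f r a ∂γ) ^ s.card ∂(Measure.pi fun _ => γ) := by
  have hfbar : Measurable fun r : ι → X => ∫⁻ a, f r a ∂γ := hf.lintegral_prod_right'
  have hfo : ∀ o : ι, Measurable fun r : ι → X => f r (r o) := fun o => by
    have h2 : Measurable fun r : ι → X => (r, r o) := measurable_id.prodMk (measurable_pi_apply o)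
    exact hf.comp h2
  induction s using Finset.induction_on with
  | empty => intro _ g _ _; simp
  | insert o s ho ih =>
    intro hfi g hg hgi
    have hsub : ∀ x y : ι → X, (∀ i, i ∉ s → x i = y i) → (∀ i, i ∉ insert o s → x i = y i) :=
      fun x y h i hi => h i fun hi' => hi (Finset.mem_insert_of_mem hi')
    have h1 := ih (fun x y h => hfi x y (hsub x y h)) (fun r => g r * f r (r o)) (hg.mul (hfo o))
      (fun x y h => by
        rw [hgi x y (hsub x y h), hfi x y (hsub x y h), h o ho])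
    have h2 : ∀ r : ι → X, g r * ∏ o' ∈ insert o s, f r (r o') = g r * f r (r o) * ∏ o' ∈ s, f r (r o') := by
      intro r
      rw [Finset.prod_insert ho, mul_assoc]
    simp_rw [h2]
    rw [h1, lint_one γ o (fun r => g r * f r (r o) * (∫⁻ a, f r a ∂γ) ^ s.card)
      ((hg.mul (hfo o)).mul (hfbar.pow_const _))]
    refine lintegral_congr fun r => ?_
    have h3 : ∀ a, g (Function.update r o a) = g r := fun a => hgi _ _ fun i hi => by
      have : i ≠ o := by
        rintro rfl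
        exact hi (Finset.mem_insert_self _ _)
      exact Function.update_of_ne this _ _
    have h4 : ∀ a, f (Function.update r o a) = f r := fun a => hfi _ _ fun i hi => by
      have : i ≠ o := by
        rintro rfl
        exact hi (Finset.mem_insert_self _ _)
      exact Function.update_of_ne this _ _
    simp_rw [h3, h4, Function.update_self]
    have h5 : ∀ a, g r * f r a * (∫⁻ a, f r a ∂γ) ^ s.card = (g r * (∫⁻ a, f r a ∂γ) ^ s.card) * f r a :=
      fun a => by ring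
    simp_rw [h5]
    rw [lintegral_const_mul _ (by
      have h6 : Measurable fun a : X => (r, a) := measurable_const.prodMk measurable_id
      exact hf.comp h6), Finset.card_insert_of_notMem ho, pow_succ]
    ring

lemma bern {b z : ℝ≥0∞} (h : b + z = 1) (L : ℕ) : b ^ L * (L * z) ≤ 1 := by
  have hb : b ≠ ⊤ := by
    rintro rfl
    simp at h
  have hz : z ≠ ⊤ := by
    rintro rfl
    simp at h
  lift b to ℝ≥0 using hb
  lift z to ℝ≥0 using hz
  norm_cast at h ⊢
  have h1 : (b : ℝ) + z = 1 := by exact_mod_cast h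
  have h2 : (b : ℝ) ^ L * (L * z) ≤ 1 := by
    have hb0 : (0:ℝ) ≤ b := b.2
    have hz0 : (0:ℝ) ≤ z := z.2
    have h3 : (1:ℝ) + L * z ≤ (1 + z) ^ L := one_add_mul_le_pow (by linarith) L
    have h4 : (b : ℝ) ^ L * (1 + z) ^ L ≤ 1 := by
      rw [← mul_pow]
      refine pow_le_one₀ (by positivity) ?_
      nlinarith
    have h5 : (b : ℝ) ^ L * (L * z) ≤ (b : ℝ) ^ L * (1 + z) ^ L := by
      refine mul_le_mul_of_nonneg_left (by linarith) (by positivity)
    linarith
  exact_mod_cast h2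

variable {E : Type*} [NormedAddCommGroup E] [InnerProductSpace ℝ E] [FiniteDimensional ℝ E]
  [MeasurableSpace E] [BorelSpace E]
variable {ι : Type*} [Fintype ι] [DecidableEq ι]

/-- the number of subsets in `𝒯` which work -/
def NN (𝒯 : Finset (Finset ι)) (t : ℝ) (r : ι → E) (a : E) : ℝ≥0∞ := ∑ T ∈ 𝒯, ind T t r a

/-- no subset works -/
def bad (𝒯 : Finset (Finset ι)) (t : ℝ) (r : ι → E) (a : E) : ℝ≥0∞ := ∏ T ∈ 𝒯, (1 - ind T t r a)

omit [DecidableEq ι] in
lemma meas_NN (𝒯 : Finset (Finset ι)) (t : ℝ) : Measurable fun p : (ι → E) × E => NN 𝒯 t p.1 p.2 := by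
  unfold NN
  exact Finset.measurable_sum _ fun T _ => meas_ind T t

omit [DecidableEq ι] in
lemma meas_bad (𝒯 : Finset (Finset ι)) (t : ℝ) : Measurable fun p : (ι → E) × E => bad 𝒯 t p.1 p.2 := by
  unfold bad
  exact Finset.measurable_prod _ fun T _ => measurable_const.sub (meas_ind T t)

omit [DecidableEq ι] in
lemma meas_NN_of {Ω : Type*} [MeasurableSpace Ω] (𝒯 : Finset (Finset ι)) (t : ℝ) {f : Ω → (ι → E)} {g : Ω → E}
    (hf : Measurable f) (hg : Measurable g) : Measurable fun ω => NN 𝒯 t (f ω) (g ω) := by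
  have h2 : Measurable fun ω => (f ω, g ω) := hf.prodMk hg
  have h3 := Measurable.comp (meas_NN (E := E) 𝒯 t) h2
  exact h3

omit [DecidableEq ι] in
lemma meas_bad_of {Ω : Type*} [MeasurableSpace Ω] (𝒯 : Finset (Finset ι)) (t : ℝ) {f : Ω → (ι → E)} {g : Ω → E}
    (hf : Measurable f) (hg : Measurable g) : Measurable fun ω => bad 𝒯 t (f ω) (g ω) := by
  have h2 : Measurable fun ω => (f ω, g ω) := hf.prodMk hg
  have h3 := Measurable.comp (meas_bad (E := E) 𝒯 t) h2
  exact h3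

omit [FiniteDimensional ℝ E] [MeasurableSpace E] [BorelSpace E] [Fintype ι] [DecidableEq ι] in
lemma bad_le (𝒯 : Finset (Finset ι)) (t : ℝ) (r : ι → E) (a : E) : bad 𝒯 t r a ≤ 1 := by
  unfold bad
  exact Finset.prod_le_one' fun T _ => tsub_le_self

omit [FiniteDimensional ℝ E] [MeasurableSpace E] [BorelSpace E] [Fintype ι] [DecidableEq ι] in
lemma NN_mul (𝒯 : Finset (Finset ι)) (t : ℝ) (r : ι → E) (a : E) :
    NN 𝒯 t r a * (1 - bad 𝒯 t r a) = NN 𝒯 t r a := by
  by_cases h : ∃ T ∈ 𝒯, dd T r a ≤ t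
  · obtain ⟨T, hT, hd⟩ := h
    have h1 : bad 𝒯 t r a = 0 := by
      unfold bad
      refine Finset.prod_eq_zero hT ?_
      rw [ind_pos hd]
      simp
    rw [h1, tsub_zero, mul_one]
  · push Not at h
    have h1 : NN 𝒯 t r a = 0 := by
      unfold NN
      refine Finset.sum_eq_zero fun T hT => ?_
      exact ind_neg (not_le.2 (h T hT))
    rw [h1, zero_mul]

/-- second moment inequality for fixed rows `r` -/
lemma cs (𝒯 : Finset (Finset ι)) (t : ℝ) (r : ι → E) :
    (∫⁻ a, NN 𝒯 t r a ∂(stdGaussian E)) ^ 2 ≤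
      (∫⁻ a, NN 𝒯 t r a ^ 2 ∂(stdGaussian E)) * ∫⁻ a, (1 - bad 𝒯 t r a) ∂(stdGaussian E) := by
  have hN : Measurable fun a : E => NN 𝒯 t r a := meas_NN_of 𝒯 t measurable_const measurable_id
  have hb : Measurable fun a : E => bad 𝒯 t r a := meas_bad_of 𝒯 t measurable_const measurable_id
  have hG : Measurable fun a : E => 1 - bad 𝒯 t r a := measurable_const.sub hb
  have h := ENNReal.lintegral_mul_le_Lp_mul_Lq (stdGaussian E) (Real.HolderConjugate.two_two)
    hN.aemeasurable hG.aemeasurable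
  have h1 : ∫⁻ a, ((fun a : E => NN 𝒯 t r a) * fun a : E => 1 - bad 𝒯 t r a) a ∂(stdGaussian E) =
      ∫⁻ a, NN 𝒯 t r a ∂(stdGaussian E) :=
    lintegral_congr fun a => NN_mul 𝒯 t r a
  rw [h1] at h
  have h2 := pow_le_pow_left' h 2
  refine h2.trans ?_
  rw [mul_pow, ← ENNReal.rpow_natCast, ← ENNReal.rpow_natCast, ← ENNReal.rpow_mul, ← ENNReal.rpow_mul]
  norm_num
  refine mul_le_mul' le_rfl (lintegral_mono fun a => ?_)
  have h3 : 1 - bad 𝒯 t r a ≤ 1 := tsub_le_self
  calc (1 - bad 𝒯 t r a) ^ 2 = (1 - bad 𝒯 t r a) * (1 - bad 𝒯 t r a) := sq _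
    _ ≤ 1 * (1 - bad 𝒯 t r a) := mul_le_mul' h3 le_rfl
    _ = _ := one_mul _

/-- failure of all the rows in a set of size `L`, for fixed other rows -/
lemma fail_le (𝒯 : Finset (Finset ι)) (t : ℝ) (r : ι → E) (L : ℕ) {m : ℝ≥0∞}
    (hm : m ≤ ∫⁻ a, NN 𝒯 t r a ∂(stdGaussian E)) :
    (∫⁻ a, bad 𝒯 t r a ∂(stdGaussian E)) ^ L * (L * m ^ 2) ≤
      ∫⁻ a, NN 𝒯 t r a ^ 2 ∂(stdGaussian E) := by
  have hb : Measurable fun a : E => bad 𝒯 t r a := meas_bad_of 𝒯 t measurable_const measurable_id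
  have hsum : ∫⁻ a, bad 𝒯 t r a ∂(stdGaussian E) + ∫⁻ a, (1 - bad 𝒯 t r a) ∂(stdGaussian E) = 1 := by
    rw [← lintegral_add_left hb]
    have h : ∀ a, bad 𝒯 t r a + (1 - bad 𝒯 t r a) = 1 := fun a => add_tsub_cancel_of_le (bad_le 𝒯 t r a)
    simp_rw [h]
    simp
  set β := ∫⁻ a, bad 𝒯 t r a ∂(stdGaussian E)
  set z := ∫⁻ a, (1 - bad 𝒯 t r a) ∂(stdGaussian E)
  set Y := ∫⁻ a, NN 𝒯 t r a ^ 2 ∂(stdGaussian E)
  calc β ^ L * (L * m ^ 2) ≤ β ^ L * (L * (Y * z)) := by
        gcongr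
        exact (pow_le_pow_left' hm 2).trans (cs 𝒯 t r)
    _ = (β ^ L * (L * z)) * Y := by ring
    _ ≤ 1 * Y := mul_le_mul' (bern hsum L) le_rfl
    _ = Y := one_mul _

end Pool.Agent.X166.GP
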