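import Pool.Agent.X166.GP.S

set_option autoImplicit false

noncomputable section

open MeasureTheory ProbabilityTheory Module
open scoped ENNReal NNReal RealInnerProductSpace

namespace Pool.Agent.X166.GP

variable {ι : Type*} [Fintype ι] [DecidableEq ι]

lemma near_card (M : ℕ) (𝒯 : Finset (Finset ι)) (h𝒯 : ∀ T ∈ 𝒯, T.card = M - 1) (T : Finset ι)
    (hT : T ∈ 𝒯) :
    (𝒯.filter fun T' => ¬ ((T ∩ T').card + 3 ≤ M)).card ≤ Fintype.card ι ^ 2 + 1 := by
  have hsub : (𝒯.filter fun T' => ¬ ((T ∩ T').card + 3 ≤ M)) ⊆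
      insert T ((Finset.univ : Finset (ι × ι)).image fun p => insert p.2 (T.erase p.1)) := by
    intro T' hT'
    rw [Finset.mem_filter] at hT'
    rw [Finset.mem_insert]
    by_cases hEq : T' = T
    · exact Or.inl hEq
    · right
      have h1 := h𝒯 T hT
      have h2 := h𝒯 T' hT'.1
      have h3 : (T \ T').card + (T ∩ T').card = T.card := Finset.card_sdiff_add_card_inter T T'
      have h4 : (T' \ T).card + (T' ∩ T).card = T'.card := Finset.card_sdiff_add_card_inter T' T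
      rw [Finset.inter_comm T' T] at h4
      have h5 : (T' \ T).card ≠ 0 := by
        intro h0
        rw [Finset.card_eq_zero, Finset.sdiff_eq_empty_iff_subset] at h0
        exact hEq (Finset.eq_of_subset_of_card_le h0 (by omega))
      have h6 : (T' \ T).card = 1 := by omega
      have h7 : (T \ T').card = 1 := by omega
      rw [Finset.card_eq_one] at h6 h7
      obtain ⟨j, hj⟩ := h6
      obtain ⟨i, hi⟩ := h7
      rw [Finset.mem_image]
      refine ⟨(i, j), Finset.mem_univ _, ?_⟩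
      simp only
      have h8 : T.erase i = T ∩ T' := by
        rw [← Finset.sdiff_singleton_eq_erase, ← hi, Finset.sdiff_sdiff_self_left]
      rw [h8, Finset.insert_eq, ← hj, Finset.inter_comm, Finset.sdiff_union_inter]
  refine (Finset.card_le_card hsub).trans ((Finset.card_insert_le _ _).trans ?_)
  have h := Finset.card_image_le (s := (Finset.univ : Finset (ι × ι)))
    (f := fun p => insert p.2 (T.erase p.1))
  rw [Finset.card_univ, Fintype.card_prod] at h
  rw [sq]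
  omega

variable {E : Type*} [NormedAddCommGroup E] [InnerProductSpace ℝ E] [FiniteDimensional ℝ E]
  [MeasurableSpace E] [BorelSpace E]

lemma pair_eq (T T' : Finset ι) {o : ι} (ho : o ∉ T) (ho' : o ∉ T') (t : ℝ) :
    ∫⁻ r : ι → E, ∫⁻ a, ind T t r a * ind T' t r a ∂(stdGaussian E) ∂(rows ι E) =
      ∫⁻ r : ι → E, ind T t r (r o) * ind T' t r (r o) ∂(rows ι E) := by
  have hF : Measurable fun r : ι → E => ind T t r (r o) :=
    meas_ind_of T t measurable_id (measurable_pi_apply o)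
  have hG : Measurable fun r : ι → E => ind T' t r (r o) :=
    meas_ind_of T' t measurable_id (measurable_pi_apply o)
  have h := lint_one (stdGaussian E) o (fun r : ι → E => ind T t r (r o) * ind T' t r (r o)) (hF.mul hG)
  rw [h]
  refine lintegral_congr fun r => lintegral_congr fun a => ?_
  simp only [Function.update_self]
  rw [ind_update T t ho, ind_update T' t ho']

lemma pair_crude (T T' : Finset ι) (hT : T.card < finrank ℝ E) {t : ℝ} (ht : 0 ≤ t) :
    ∫⁻ r : ι → E, ∫⁻ a, ind T t r a * ind T' t r a ∂(stdGaussian E) ∂(rows ι E) ≤ ENNReal.ofReal t := by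
  calc _ ≤ ∫⁻ r : ι → E, ENNReal.ofReal t ∂(rows ι E) := by
        refine lintegral_mono fun r => ?_
        refine le_trans (lintegral_mono fun a => ?_) (lint_ind_le T hT r ht)
        have h1 : ind T' t r a ≤ 1 := by
          by_cases h : dd T' r a ≤ t
          · rw [ind_pos h]
          · rw [ind_neg h]
            exact zero_le
        calc ind T t r a * ind T' t r a ≤ ind T t r a * 1 := mul_le_mul' le_rfl h1
          _ = _ := mul_one _
    _ = _ := by simp

lemma Y_le (𝒯 : Finset (Finset ι)) (h𝒯 : ∀ T ∈ 𝒯, T.card = finrank ℝ E - 1) (hE : 1 ≤ finrank ℝ E)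
    {o : ι} (ho : ∀ T ∈ 𝒯, o ∉ T) {t : ℝ} (ht : 0 < t) :
    ∫⁻ r : ι → E, ∫⁻ a, NN 𝒯 t r a ^ 2 ∂(stdGaussian E) ∂(rows ι E) ≤
      𝒯.card * ((Fintype.card ι ^ 2 + 1 : ℕ) * ENNReal.ofReal t) +
        𝒯.card * (𝒯.card * (ENNReal.ofReal (8 * t ^ 2) * K1)) := by
  have hmeas1 : ∀ (r : ι → E) (T T' : Finset ι), Measurable fun a : E => ind T t r a * ind T' t r a :=
    fun r T T' => (meas_ind_of T t measurable_const measurable_id).mul
      (meas_ind_of T' t measurable_const measurable_id)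
  have hmeas2 : ∀ (T T' : Finset ι), Measurable fun r : ι → E =>
      ∫⁻ a, ind T t r a * ind T' t r a ∂(stdGaussian E) := fun T T' => by
    have h1 : Measurable fun p : (ι → E) × E => ind T t p.1 p.2 * ind T' t p.1 p.2 :=
      (meas_ind T t).mul (meas_ind T' t)
    exact h1.lintegral_prod_right'
  have h1 : ∀ r : ι → E, ∫⁻ a, NN 𝒯 t r a ^ 2 ∂(stdGaussian E) =
      ∑ T ∈ 𝒯, ∑ T' ∈ 𝒯, ∫⁻ a, ind T t r a * ind T' t r a ∂(stdGaussian E) := by
    intro r
    have h2 : ∀ a, NN 𝒯 t r a ^ 2 = ∑ T ∈ 𝒯, ∑ T' ∈ 𝒯, ind T t r a * ind T' t r a := by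
      intro a
      unfold NN
      rw [sq, Finset.sum_mul_sum]
    simp_rw [h2]
    rw [lintegral_finsetSum _ fun T _ => Finset.measurable_sum _ fun T' _ => hmeas1 r T T']
    refine Finset.sum_congr rfl fun T _ => ?_
    rw [lintegral_finsetSum _ fun T' _ => hmeas1 r T T']
  simp_rw [h1]
  rw [lintegral_finsetSum _ fun T _ => Finset.measurable_sum _ fun T' _ => hmeas2 T T']
  have h3 : ∀ T ∈ 𝒯, ∫⁻ r : ι → E, ∑ T' ∈ 𝒯, ∫⁻ a, ind T t r a * ind T' t r a ∂(stdGaussian E) ∂(rows ι E) ≤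
      (Fintype.card ι ^ 2 + 1 : ℕ) * ENNReal.ofReal t + 𝒯.card * (ENNReal.ofReal (8 * t ^ 2) * K1) := by
    intro T hT
    rw [lintegral_finsetSum _ fun T' _ => hmeas2 T T']
    rw [← Finset.sum_filter_not_add_sum_filter 𝒯 (fun T' => (T ∩ T').card + 3 ≤ finrank ℝ E)]
    refine add_le_add ?_ ?_
    · calc _ ≤ ∑ T' ∈ 𝒯.filter (fun T' => ¬ ((T ∩ T').card + 3 ≤ finrank ℝ E)), ENNReal.ofReal t := by
            refine Finset.sum_le_sum fun T' _ => pair_crude T T' ?_ ht.le
            rw [h𝒯 T hT]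
            omega
        _ = ((𝒯.filter (fun T' => ¬ ((T ∩ T').card + 3 ≤ finrank ℝ E))).card : ℝ≥0∞) * ENNReal.ofReal t := by
            rw [Finset.sum_const, nsmul_eq_mul]
        _ ≤ _ := by
            refine mul_le_mul' ?_ le_rfl
            exact_mod_cast near_card (finrank ℝ E) 𝒯 h𝒯 T hT
    · calc _ ≤ ∑ T' ∈ 𝒯.filter (fun T' => (T ∩ T').card + 3 ≤ finrank ℝ E), (ENNReal.ofReal (8 * t ^ 2) * K1) := by
            refine Finset.sum_le_sum fun T' hT' => ?_
            rw [Finset.mem_filter] at hT'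
            rw [pair_eq T T' (ho T hT) (ho T' hT'.1) t]
            refine pair_le T T' ?_ ?_ hT'.2 (ho T hT) (ho T' hT'.1) ht
            · rw [h𝒯 T hT]
              omega
            · rw [h𝒯 T' hT'.1]
              omega
        _ = ((𝒯.filter (fun T' => (T ∩ T').card + 3 ≤ finrank ℝ E)).card : ℝ≥0∞) * (ENNReal.ofReal (8 * t ^ 2) * K1) := by
            rw [Finset.sum_const, nsmul_eq_mul]
        _ ≤ _ := by
            refine mul_le_mul' ?_ le_rfl
            exact_mod_cast Finset.card_filter_le _ _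
  refine (Finset.sum_le_sum h3).trans (le_of_eq ?_)
  rw [Finset.sum_const, nsmul_eq_mul, mul_add]

/-- **Second moment bound.** -/
theorem second_moment (Λ : Finset ι) (hΛ : Λ.Nonempty) (hE : 1 ≤ finrank ℝ E) {t : ℝ} (ht : 0 < t)
    (ht1 : t ≤ 1) :
    rows ι E {r | ∀ o ∈ Λ, ∀ T ∈ (Finset.univ \ Λ).powersetCard (finrank ℝ E - 1), t < dd T r (r o)} *
      (Λ.card * (((Finset.univ \ Λ).powersetCard (finrank ℝ E - 1)).card * ENNReal.ofReal (t / 4)) ^ 2) ≤
      ((Finset.univ \ Λ).powersetCard (finrank ℝ E - 1)).card * ((Fintype.card ι ^ 2 + 1 : ℕ) * ENNReal.ofReal t) +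
        ((Finset.univ \ Λ).powersetCard (finrank ℝ E - 1)).card *
          (((Finset.univ \ Λ).powersetCard (finrank ℝ E - 1)).card * (ENNReal.ofReal (8 * t ^ 2) * K1)) := by
  set 𝒯 := (Finset.univ \ Λ).powersetCard (finrank ℝ E - 1) with h𝒯def
  have h𝒯 : ∀ T ∈ 𝒯, T.card = finrank ℝ E - 1 := fun T hT => (Finset.mem_powersetCard.1 hT).2
  have hoT : ∀ o ∈ Λ, ∀ T ∈ 𝒯, o ∉ T := by
    intro o ho T hT h
    exact (Finset.mem_sdiff.1 ((Finset.mem_powersetCard.1 hT).1 h)).2 ho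
  have hbadcongr : ∀ x y : ι → E, (∀ i, i ∉ Λ → x i = y i) → bad 𝒯 t x = bad 𝒯 t y := by
    intro x y h
    ext1 a
    unfold bad
    refine Finset.prod_congr rfl fun T hT => ?_
    rw [ind_congr fun i hi => h i fun hi' => hoT i hi' T hT hi]
  have h1 : rows ι E {r | ∀ o ∈ Λ, ∀ T ∈ 𝒯, t < dd T r (r o)} ≤
      ∫⁻ r, ∏ o ∈ Λ, bad 𝒯 t r (r o) ∂(rows ι E) := by
    have h2 := mul_meas_ge_le_lintegral₀ (μ := rows ι E) (f := fun r => ∏ o ∈ Λ, bad 𝒯 t r (r o))
      (Finset.measurable_prod _ fun o _ => meas_bad_of 𝒯 t measurable_id (measurable_pi_apply o)).aemeasurable 1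
    rw [one_mul] at h2
    refine (measure_mono ?_).trans h2
    intro r hr
    simp only [Set.mem_ofPred_eq] at hr ⊢
    refine le_of_eq (Finset.prod_eq_one fun o ho => ?_).symm
    unfold bad
    refine Finset.prod_eq_one fun T hT => ?_
    rw [ind_neg (not_le.2 (hr o ho T hT)), tsub_zero]
  have h2 := lint_prod (stdGaussian E) (bad 𝒯 t) (meas_bad 𝒯 t) Λ hbadcongr (fun _ => 1)
    measurable_const (fun _ _ _ => rfl)
  simp only [one_mul] at h2
  obtain ⟨o, ho⟩ := hΛ
  have hm : Measurable fun r : ι → E => (∫⁻ a, bad 𝒯 t r a ∂(stdGaussian E)) ^ Λ.card := by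
    have h3 : Measurable fun r : ι → E => ∫⁻ a, bad 𝒯 t r a ∂(stdGaussian E) :=
      (meas_bad 𝒯 t).lintegral_prod_right'
    exact h3.pow_const _
  calc _ ≤ (∫⁻ r, (∫⁻ a, bad 𝒯 t r a ∂(stdGaussian E)) ^ Λ.card ∂(rows ι E)) *
        (Λ.card * (𝒯.card * ENNReal.ofReal (t / 4)) ^ 2) := by
        refine mul_le_mul' (h1.trans (le_of_eq h2)) le_rfl
    _ = ∫⁻ r, (∫⁻ a, bad 𝒯 t r a ∂(stdGaussian E)) ^ Λ.card *
        (Λ.card * (𝒯.card * ENNReal.ofReal (t / 4)) ^ 2) ∂(rows ι E) := by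
        rw [lintegral_mul_const _ hm]
    _ ≤ ∫⁻ r : ι → E, ∫⁻ a, NN 𝒯 t r a ^ 2 ∂(stdGaussian E) ∂(rows ι E) := by
        refine lintegral_mono_ae ?_
        filter_upwards [ae_gen (ι := ι) (E := E)] with r hr
        refine fail_le 𝒯 t r Λ.card ?_
        have h4 : ∫⁻ a, NN 𝒯 t r a ∂(stdGaussian E) = ∑ T ∈ 𝒯, ∫⁻ a, ind T t r a ∂(stdGaussian E) := by
          unfold NN
          exact lintegral_finsetSum _ fun T _ => meas_ind_of T t measurable_const measurable_id
        rw [h4, ← nsmul_eq_mul, ← Finset.sum_const]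
        refine Finset.sum_le_sum fun T hT => ?_
        refine lint_ind_ge T r ?_ ht.le ht1
        rw [finrank_of hr T (by rw [h𝒯 T hT]; omega), h𝒯 T hT]
        omega
    _ ≤ _ := Y_le 𝒯 h𝒯 hE (hoT o ho) ht

end Pool.Agent.X166.GP
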