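import Pool.Agent.X166.GP.U

set_option autoImplicit false

noncomputable section

open MeasureTheory ProbabilityTheory Module
open scoped ENNReal NNReal RealInnerProductSpace

namespace Pool.Agent.X166.GP

lemma choose_step (M L : ℕ) (hL : 2 * L ≤ M) :
    (2 * M - 1).choose (M - 1) ≤ 4 ^ L * (2 * M - 1 - L).choose (M - 1) := by
  induction L with
  | zero => simp
  | succ l ih =>
    have h1 := ih (by omega)
    obtain ⟨n, hn⟩ : ∃ n, 2 * M - 1 - l = n + 1 := ⟨2 * M - 1 - l - 1, by omega⟩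
    have hn' : 2 * M - 1 - (l + 1) = n := by omega
    rw [hn] at h1
    rw [hn']
    have h2 := Nat.choose_mul_succ_eq n (M - 1)
    have h3 : (n + 1).choose (M - 1) ≤ 4 * n.choose (M - 1) := by
      have h4 : n + 1 ≤ 4 * (n + 1 - (M - 1)) := by omega
      have h5 : (n + 1).choose (M - 1) * (n + 1) ≤ (4 * n.choose (M - 1)) * (n + 1) := by
        calc (n + 1).choose (M - 1) * (n + 1) ≤ (n + 1).choose (M - 1) * (4 * (n + 1 - (M - 1))) :=
              Nat.mul_le_mul le_rfl h4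
          _ = 4 * ((n + 1).choose (M - 1) * (n + 1 - (M - 1))) := by ring
          _ = (4 * n.choose (M - 1)) * (n + 1) := by rw [← h2]; ring
      exact Nat.le_of_mul_le_mul_right h5 (Nat.succ_pos n)
    calc (2 * M - 1).choose (M - 1) ≤ 4 ^ l * (n + 1).choose (M - 1) := h1
      _ ≤ 4 ^ l * (4 * n.choose (M - 1)) := Nat.mul_le_mul le_rfl h3
      _ = 4 ^ (l + 1) * n.choose (M - 1) := by ring

lemma choose_low (M L : ℕ) (hM : 1 ≤ M) (hL : 2 * L ≤ M) :
    4 ^ M ≤ 4 * M * (4 ^ L * (2 * M - 1 - L).choose (M - 1)) := by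
  have h1 := Nat.four_pow_le_two_mul_self_mul_centralBinom M (by omega)
  obtain ⟨m, rfl⟩ : ∃ m, M = m + 1 := ⟨M - 1, by omega⟩
  have h2 : Nat.centralBinom (m + 1) = 2 * (2 * m + 1).choose m := by
    rw [Nat.centralBinom_eq_two_mul_choose]
    have h3 : 2 * (m + 1) = (2 * m + 1) + 1 := by ring
    rw [h3, Nat.choose_succ_succ, Nat.choose_symm_half]
    ring
  have h4 := choose_step (m + 1) L hL
  have h5 : 2 * (m + 1) - 1 = 2 * m + 1 := by omega
  rw [h5, Nat.add_sub_cancel] at h4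
  rw [h5, Nat.add_sub_cancel]
  rw [h2] at h1
  calc 4 ^ (m + 1) ≤ 2 * (m + 1) * (2 * (2 * m + 1).choose m) := h1
    _ = 4 * (m + 1) * (2 * m + 1).choose m := by ring
    _ ≤ _ := Nat.mul_le_mul le_rfl h4

abbrev EE (M : ℕ) := EuclideanSpace ℝ (Fin M)

/-- some row is `t`-near to the span of `M - 1` other rows -/
def Hit {M : ℕ} (t : ℝ) (r : Fin (2 * M - 1) → EE M) : Prop :=
  ∃ (o : Fin (2 * M - 1)) (T : Finset (Fin (2 * M - 1))), o ∉ T ∧ T.card = M - 1 ∧ dd T r (r o) ≤ t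

theorem upper {ε : ℝ} (hε : 0 < ε) : ∃ (K : ℝ) (M₀ : ℕ), 0 < K ∧ ∀ M : ℕ, M₀ ≤ M → ∀ t : ℝ, 0 < t →
    t ≤ 1 → K * M ^ 3 ≤ 4 ^ M * t →
    rows (Fin (2 * M - 1)) (EE M) {r | ¬ Hit t r} ≤ ENNReal.ofReal ε := by
  set k := K1.toReal with hk
  have hk0 : 0 ≤ k := ENNReal.toReal_nonneg
  obtain ⟨L, hL⟩ := exists_nat_gt (256 * k / ε)
  have hL' : 256 * k ≤ ε * (L + 1 : ℕ) := by
    rw [div_lt_iff₀ hε] at hL
    push_cast
    nlinarith
  set L' := L + 1 with hLdef
  refine ⟨640 * 4 ^ L' / ε, 2 * L' + 1, by positivity, fun M hM t ht ht1 hK => ?_⟩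
  have hM1 : 1 ≤ M := by omega
  -- the set of the rows `Λ`
  obtain ⟨Λ, hΛsub, hΛ⟩ := Finset.exists_subset_card_eq (s := (Finset.univ : Finset (Fin (2 * M - 1))))
    (n := L') (by rw [Finset.card_univ, Fintype.card_fin]; omega)
  have hΛne : Λ.Nonempty := by
    rw [← Finset.card_pos, hΛ]
    omega
  have hfr : finrank ℝ (EE M) = M := by simp
  have h := second_moment (E := EE M) Λ hΛne (by rw [hfr]; exact hM1) ht ht1
  rw [hfr, hΛ, Fintype.card_fin] at h
  have hcard : ((Finset.univ \ Λ).powersetCard (M - 1)).card = (2 * M - 1 - L').choose (M - 1) := by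
    rw [Finset.card_powersetCard, Finset.card_sdiff_of_subset hΛsub, hΛ, Finset.card_univ,
      Fintype.card_fin]
  rw [hcard] at h
  set T := (2 * M - 1 - L').choose (M - 1) with hT
  have hsub : {r : Fin (2 * M - 1) → EE M | ¬ Hit t r} ⊆
      {r | ∀ o ∈ Λ, ∀ T ∈ (Finset.univ \ Λ).powersetCard (M - 1), t < dd T r (r o)} := by
    intro r hr o ho T' hT'
    by_contra hcon
    rw [Finset.mem_powersetCard] at hT'
    exact hr ⟨o, T', fun h => (Finset.mem_sdiff.1 (hT'.1 h)).2 ho, hT'.2, not_lt.1 hcon⟩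
  refine (measure_mono hsub).trans ?_
  set p := rows (Fin (2 * M - 1)) (EE M)
    {r | ∀ o ∈ Λ, ∀ T ∈ (Finset.univ \ Λ).powersetCard (M - 1), t < dd T r (r o)} with hp
  have hp1 : p ≠ ⊤ := measure_ne_top _ _
  have hK1 : K1 ≠ ⊤ := K1_lt_top.ne
  -- in real numbers
  have hreal : p.toReal * (L' * (T * (t / 4)) ^ 2) ≤
      T * (((2 * M - 1 : ℕ) ^ 2 + 1) * t) + T * (T * (8 * t ^ 2 * k)) := by
    have h2 := ENNReal.toReal_mono (by
      refine ENNReal.add_ne_top.2 ⟨?_, ?_⟩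
      · exact ENNReal.mul_ne_top (ENNReal.natCast_ne_top _)
          (ENNReal.mul_ne_top (ENNReal.natCast_ne_top _) ENNReal.ofReal_ne_top)
      · exact ENNReal.mul_ne_top (ENNReal.natCast_ne_top _)
          (ENNReal.mul_ne_top (ENNReal.natCast_ne_top _) (ENNReal.mul_ne_top ENNReal.ofReal_ne_top hK1))) h
    rw [ENNReal.toReal_add (ENNReal.mul_ne_top (ENNReal.natCast_ne_top _)
          (ENNReal.mul_ne_top (ENNReal.natCast_ne_top _) ENNReal.ofReal_ne_top))
        (ENNReal.mul_ne_top (ENNReal.natCast_ne_top _)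
          (ENNReal.mul_ne_top (ENNReal.natCast_ne_top _) (ENNReal.mul_ne_top ENNReal.ofReal_ne_top hK1)))] at h2
    simp only [ENNReal.toReal_mul, ENNReal.toReal_pow, ENNReal.toReal_natCast] at h2
    rw [ENNReal.toReal_ofReal (by positivity), ENNReal.toReal_ofReal ht.le,
      ENNReal.toReal_ofReal (by positivity)] at h2
    push_cast at h2 ⊢
    exact h2
  have hTlow : (4:ℝ) ^ M ≤ 4 * M * (4 ^ L' * T) := by
    exact_mod_cast choose_low M L' hM1 (by omega)
  have hMpos : (0:ℝ) < M := by exact_mod_cast hM1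
  have hM1' : (1:ℝ) ≤ M := by exact_mod_cast hM1
  have hTpos : (0:ℝ) < T := by
    by_contra hcon
    have h0 : (T:ℝ) = 0 := le_antisymm (not_lt.1 hcon) (by positivity)
    rw [h0, mul_zero, mul_zero] at hTlow
    have : (0:ℝ) < 4 ^ M := by positivity
    linarith
  have hn : ((2 * M - 1 : ℕ) : ℝ) ≤ 2 * M := by
    have : 2 * M - 1 ≤ 2 * M := Nat.sub_le _ _
    exact_mod_cast this
  have hn0 : (0:ℝ) ≤ ((2 * M - 1 : ℕ) : ℝ) := by positivity
  -- `T t` is large
  have hTt : 160 * (M:ℝ) ^ 2 ≤ ε * (T * t) := by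
    have h5 : 640 * 4 ^ L' / ε * M ^ 3 ≤ (4 * M * (4 ^ L' * T)) * t :=
      hK.trans (mul_le_mul_of_nonneg_right hTlow ht.le)
    have h6 : 640 * 4 ^ L' * (M:ℝ) ^ 3 ≤ ε * ((4 * M * (4 ^ L' * T)) * t) := by
      rw [div_mul_eq_mul_div, div_le_iff₀ hε] at h5
      linarith
    have h7 : (4 * 4 ^ L' * (M:ℝ)) * (160 * (M:ℝ) ^ 2) ≤ (4 * 4 ^ L' * (M:ℝ)) * (ε * (T * t)) := by
      calc (4 * 4 ^ L' * (M:ℝ)) * (160 * (M:ℝ) ^ 2) = 640 * 4 ^ L' * (M:ℝ) ^ 3 := by ring
        _ ≤ _ := h6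
        _ = _ := by ring
    exact le_of_mul_le_mul_left h7 (by positivity)
  have hLpos : (1:ℝ) ≤ L' := by
    have : 1 ≤ L' := by omega
    exact_mod_cast this
  have hfinal : p.toReal ≤ ε := by
    by_contra hcon
    push Not at hcon
    have h8 : ε * (L' * (T * (t / 4)) ^ 2) < p.toReal * (L' * (T * (t / 4)) ^ 2) :=
      mul_lt_mul_of_pos_right hcon (by positivity)
    have h9 : T * (((2 * M - 1 : ℕ) ^ 2 + 1) * t) + T * (T * (8 * t ^ 2 * k)) ≤
        ε * (L' * (T * (t / 4)) ^ 2) := by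
      have h10 : (((2 * M - 1 : ℕ) : ℝ) ^ 2 + 1) ≤ 5 * M ^ 2 := by nlinarith
      have h11 : T * (((2 * M - 1 : ℕ) ^ 2 + 1) * t) ≤ (T * t) * (5 * M ^ 2) := by
        calc T * (((2 * M - 1 : ℕ) ^ 2 + 1) * t) = (T * t) * (((2 * M - 1 : ℕ) : ℝ) ^ 2 + 1) := by ring
          _ ≤ _ := mul_le_mul_of_nonneg_left h10 (by positivity)
      have h12 : (T * t) * (5 * M ^ 2) ≤ (T * t) * (ε * (T * t) / 32) :=
        mul_le_mul_of_nonneg_left (by linarith) (by positivity)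
      have h13 : (T * t) * (ε * (T * t) / 32) ≤ ε * L' * (T * t) ^ 2 / 32 := by
        have : (T * t) * (ε * (T * t) / 32) = ε * 1 * (T * t) ^ 2 / 32 := by ring
        rw [this]
        gcongr
      have h14 : T * (T * (8 * t ^ 2 * k)) ≤ ε * L' * (T * t) ^ 2 / 32 := by
        have : T * (T * (8 * t ^ 2 * k)) = (256 * k) * ((T * t) ^ 2 / 32) := by ring
        rw [this]
        calc (256 * k) * ((T * t) ^ 2 / 32) ≤ (ε * L') * ((T * t) ^ 2 / 32) :=
              mul_le_mul_of_nonneg_right hL' (by positivity)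
          _ = _ := by ring
      calc _ ≤ ε * L' * (T * t) ^ 2 / 32 + ε * L' * (T * t) ^ 2 / 32 := by linarith
        _ = _ := by ring
    linarith
  rw [← ENNReal.ofReal_toReal hp1]
  exact ENNReal.ofReal_le_ofReal hfinal

end Pool.Agent.X166.GP
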