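import Pool.Agent.X166.GP.V

set_option autoImplicit false

noncomputable section

open MeasureTheory ProbabilityTheory Module
open scoped ENNReal NNReal RealInnerProductSpace

namespace Pool.Agent.X166.GP

/-- generic rows -/
def Gen {M : ℕ} (r : Fin (2 * M - 1) → EE M) : Prop :=
  ∀ (T : Finset (Fin (2 * M - 1))) (o : Fin (2 * M - 1)), o ∉ T → T.card < M → 0 < dd T r (r o)

/-- `M` rows such that one is near to the span of the others -/
def Low {M : ℕ} (s : ℝ) (r : Fin (2 * M - 1) → EE M) : Prop :=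
  ∃ (S : Finset (Fin (2 * M - 1))), S.card = M ∧ ∃ i ∈ S, dd (S.erase i) r (r i) ≤ s

lemma ae_Gen (M : ℕ) : rows (Fin (2 * M - 1)) (EE M) {r | ¬ Gen r} = 0 := by
  have h := ae_gen (ι := Fin (2 * M - 1)) (E := EE M)
  rw [ae_iff] at h
  have hfr : finrank ℝ (EE M) = M := by simp
  rw [hfr] at h
  exact h

lemma low_le (M : ℕ) (hM : 1 ≤ M) {s : ℝ} (hs : 0 ≤ s) :
    rows (Fin (2 * M - 1)) (EE M) {r | Low s r} ≤ ENNReal.ofReal (4 ^ M * M * s) := by
  have hfr : finrank ℝ (EE M) = M := by simp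
  have hsub : {r : Fin (2 * M - 1) → EE M | Low s r} ⊆
      ⋃ S ∈ (Finset.univ : Finset (Fin (2 * M - 1))).powersetCard M, ⋃ i ∈ S,
        {r | dd (S.erase i) r (r i) ≤ s} := by
    rintro r ⟨S, hS, i, hi, h⟩
    simp only [Set.mem_iUnion]
    exact ⟨S, Finset.mem_powersetCard.2 ⟨Finset.subset_univ _, hS⟩, i, hi, h⟩
  refine (measure_mono hsub).trans ((measure_biUnion_finset_le _ _).trans ?_)
  have h1 : ∀ S ∈ (Finset.univ : Finset (Fin (2 * M - 1))).powersetCard M,
      rows (Fin (2 * M - 1)) (EE M) (⋃ i ∈ S, {r | dd (S.erase i) r (r i) ≤ s}) ≤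
        (M : ℝ≥0∞) * ENNReal.ofReal s := by
    intro S hS
    have hc := (Finset.mem_powersetCard.1 hS).2
    refine (measure_biUnion_finset_le _ _).trans ?_
    have h2 : ∀ i ∈ S, rows (Fin (2 * M - 1)) (EE M) {r | dd (S.erase i) r (r i) ≤ s} ≤ ENNReal.ofReal s := by
      intro i hi
      refine single_le (S.erase i) ?_ (Finset.notMem_erase i S) hs
      rw [hfr, Finset.card_erase_of_mem hi, hc]
      omega
    refine (Finset.sum_le_sum h2).trans (le_of_eq ?_)
    rw [Finset.sum_const, nsmul_eq_mul, hc]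
  refine (Finset.sum_le_sum h1).trans ?_
  rw [Finset.sum_const, nsmul_eq_mul]
  have h3 : ((Finset.univ : Finset (Fin (2 * M - 1))).powersetCard M).card ≤ 4 ^ M := by
    rw [Finset.card_powersetCard, Finset.card_univ, Fintype.card_fin]
    calc (2 * M - 1).choose M ≤ 2 ^ (2 * M - 1) := Nat.choose_le_two_pow _ _
      _ ≤ 2 ^ (2 * M) := Nat.pow_le_pow_right (by norm_num) (Nat.sub_le _ _)
      _ = 4 ^ M := by rw [pow_mul]; norm_num
  have h4 : ENNReal.ofReal (4 ^ M * M * s) = ((4 ^ M : ℕ) : ℝ≥0∞) * ((M : ℝ≥0∞) * ENNReal.ofReal s) := by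
    rw [mul_assoc, ENNReal.ofReal_mul (by positivity), ENNReal.ofReal_mul (by positivity),
      ENNReal.ofReal_natCast]
    congr 1
    rw [← ENNReal.ofReal_natCast]
    push_cast
    rfl
  rw [h4]
  exact mul_le_mul' (by exact_mod_cast h3) le_rfl

/-- deterministic: `M` independent rows and a unit vector with small image -/
lemma low_of {M : ℕ} (hM : 1 ≤ M) {r : Fin (2 * M - 1) → EE M} (hr : Gen r)
    (S : Finset (Fin (2 * M - 1))) (hS : M ≤ S.card) (x : EE M) (hx : ‖x‖ = 1) {t : ℝ} (ht : 0 < t)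
    (h : ∀ i ∈ S, |⟪r i, x⟫| ≤ t) : Low (M * t) r := by
  obtain ⟨S', hS', hcard⟩ := Finset.exists_subset_card_eq hS
  have hfr : finrank ℝ (EE M) = M := by simp
  have h1 := finrank_of hr S' (by omega)
  have htop : sp S' r = ⊤ := by
    apply Submodule.eq_top_of_finrank_eq
    rw [h1, hcard, hfr]
  have hxs : x ∈ sp S' r := by
    rw [htop]
    trivial
  unfold sp at hxs
  rw [Submodule.mem_span_image_finset_iff_exists_fun'] at hxs
  obtain ⟨w, hw⟩ := hxs
  have hMpos : (0:ℝ) < M := by exact_mod_cast hM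
  have hsum : (1:ℝ) = ∑ i ∈ S', w i * ⟪r i, x⟫ := by
    have h2 : ⟪x, x⟫ = 1 := by rw [real_inner_self_eq_norm_sq, hx]; norm_num
    rw [← h2]
    conv_lhs => rw [← hw, sum_inner]
    refine Finset.sum_congr rfl fun i _ => ?_
    rw [real_inner_smul_left, hw]
  obtain ⟨i, hi, hwi⟩ : ∃ i ∈ S', 1 / M ≤ |w i| * t := by
    by_contra hcon
    push Not at hcon
    have hne : S'.Nonempty := by
      rw [← Finset.card_pos]
      omega
    have h3 : ∑ i ∈ S', w i * ⟪r i, x⟫ < ∑ i ∈ S', (1 / M : ℝ) := by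
      refine Finset.sum_lt_sum_of_nonempty hne fun i hi => ?_
      calc w i * ⟪r i, x⟫ ≤ |w i * ⟪r i, x⟫| := le_abs_self _
        _ = |w i| * |⟪r i, x⟫| := abs_mul _ _
        _ ≤ |w i| * t := mul_le_mul_of_nonneg_left (h i (hS' hi)) (abs_nonneg _)
        _ < 1 / M := hcon i hi
    rw [Finset.sum_const, hcard, nsmul_eq_mul, mul_one_div_cancel hMpos.ne', ← hsum] at h3
    exact lt_irrefl _ h3
  have hwpos : 0 < |w i| := by
    by_contra hcon
    have h0 : |w i| = 0 := le_antisymm (not_lt.1 hcon) (abs_nonneg _)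
    rw [h0, zero_mul] at hwi
    have : 0 < 1 / (M:ℝ) := by positivity
    linarith
  have hw0 : w i ≠ 0 := abs_pos.1 hwpos
  refine ⟨S', hcard, i, hi, ?_⟩
  have hdec : w i • r i = x - ∑ j ∈ S'.erase i, w j • r j := by
    rw [← hw, ← Finset.add_sum_erase _ _ hi]
    abel
  have hmem : -((w i)⁻¹ • ∑ j ∈ S'.erase i, w j • r j) ∈ sp (S'.erase i) r := by
    refine Submodule.neg_mem _ (Submodule.smul_mem _ _ (Submodule.sum_mem _ fun j hj => ?_))
    exact Submodule.smul_mem _ _ (mem_sp hj)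
  have hdist := Metric.infDist_le_dist_of_mem (x := r i)
    (show -((w i)⁻¹ • ∑ j ∈ S'.erase i, w j • r j) ∈ (sp (S'.erase i) r : Set (EE M)) from hmem)
  have heq : r i - -((w i)⁻¹ • ∑ j ∈ S'.erase i, w j • r j) = (w i)⁻¹ • x := by
    have h5 : r i = (w i)⁻¹ • (x - ∑ j ∈ S'.erase i, w j • r j) := by
      rw [← hdec, smul_smul, inv_mul_cancel₀ hw0, one_smul]
    rw [h5, smul_sub]
    abel
  rw [dist_eq_norm, heq, norm_smul, hx, mul_one, norm_inv, Real.norm_eq_abs] at hdist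
  refine hdist.trans ?_
  rw [inv_le_comm₀ hwpos (by positivity), mul_inv]
  rw [div_le_iff₀ hMpos] at hwi
  have h6 : (M:ℝ)⁻¹ * t⁻¹ = 1 / (M * t) := by
    rw [one_div, mul_inv]
  rw [h6, div_le_iff₀ (by positivity)]
  linarith

end Pool.Agent.X166.GP
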