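import Pool.Agent.X166.GP.Z

set_option autoImplicit false

noncomputable section

open MeasureTheory ProbabilityTheory Module Filter Topology
open scoped ENNReal NNReal RealInnerProductSpace

namespace Pool.Agent.X166.GP

lemma tz {f : ℕ → ℝ≥0∞} (h : ∀ δ : ℝ, 0 < δ → ∀ᶠ M in atTop, f M ≤ ENNReal.ofReal δ) :
    Tendsto f atTop (𝓝 0) := by
  rw [ENNReal.tendsto_nhds_zero]
  intro ε hε
  by_cases htop : ε = ⊤
  · rw [htop]
    exact Eventually.of_forall fun _ => le_top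
  · have hpos : 0 < ε.toReal := ENNReal.toReal_pos hε.ne' htop
    filter_upwards [h ε.toReal hpos] with M hM
    rwa [ENNReal.ofReal_toReal htop] at hM

lemma dd_empty {N M : ℕ} (r : Fin N → EE M) (a : EE M) : dd ∅ r a = ‖a‖ := by
  unfold dd sp
  simp

/-- the largest row is not too small -/
lemma small_row {M : ℕ} (hM : 1 ≤ M) {s : ℝ} (hs : 0 ≤ s) :
    gaussianMatrix (2 * M - 1) M {A | maxRow A < s} ≤ ENNReal.ofReal s := by
  have hfr : finrank ℝ (EE M) = M := by simp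
  have h := single_le (ι := Fin (2 * M - 1)) (E := EE M) ∅ (by rw [hfr, Finset.card_empty]; omega)
    (o := ⟨0, by omega⟩) (Finset.notMem_empty _) hs
  refine (gm_le _ _ fun A hA => ?_).trans h
  simp only [Set.mem_ofPred_eq] at hA ⊢
  rw [dd_empty]
  exact (norm_le_maxRow A _).trans hA.le

lemma big_one {M : ℕ} (hM : 1 ≤ M) (i : Fin (2 * M - 1)) :
    rows (Fin (2 * M - 1)) (EE M) {r | (M:ℝ) ^ 2 < ‖r i‖} ≤ ENNReal.ofReal (1 / M ^ 3) := by
  have hMpos : (0:ℝ) < M := by exact_mod_cast hM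
  have hfr : finrank ℝ (⊤ : Submodule ℝ (EE M)) = M := by simp
  have h1 := proj_sq (E := EE M) ⊤
  rw [hfr] at h1
  have hpn : ∀ a : EE M, pn (⊤ : Submodule ℝ (EE M)) a = ‖a‖ := by
    intro a
    unfold pn
    have h2 : ((⊤ : Submodule ℝ (EE M)).orthogonalProjectionOnto a : EE M) = a := by
      have := Submodule.starProjection_eq_self_iff.2 (Submodule.mem_top : a ∈ (⊤ : Submodule ℝ (EE M)))
      exact this
    rw [Submodule.coe_norm, h2]
  simp_rw [hpn] at h1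
  have h3 := mul_meas_ge_le_lintegral₀ (μ := stdGaussian (EE M))
    (f := fun a => ENNReal.ofReal (‖a‖ ^ 2)) (by fun_prop) (ENNReal.ofReal (M ^ 4))
  rw [h1] at h3
  have h4 : rows (Fin (2 * M - 1)) (EE M) {r | (M:ℝ) ^ 2 < ‖r i‖} = stdGaussian (EE M) {a | (M:ℝ) ^ 2 < ‖a‖} := by
    have h5 := (measurePreserving_eval (fun _ : Fin (2 * M - 1) => stdGaussian (EE M)) i).measure_preimage
      (s := {a : EE M | (M:ℝ) ^ 2 < ‖a‖}) (measurableSet_lt measurable_const (by fun_prop)).nullMeasurableSet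
    exact h5
  rw [h4]
  have h6 : stdGaussian (EE M) {a | (M:ℝ) ^ 2 < ‖a‖} ≤
      stdGaussian (EE M) {a | ENNReal.ofReal (M ^ 4) ≤ ENNReal.ofReal (‖a‖ ^ 2)} := by
    refine measure_mono fun a ha => ?_
    simp only [Set.mem_ofPred_eq] at ha ⊢
    apply ENNReal.ofReal_le_ofReal
    have : (M:ℝ) ^ 4 = (M ^ 2) ^ 2 := by ring
    rw [this]
    exact pow_le_pow_left₀ (by positivity) ha.le 2
  refine h6.trans ?_
  have hne0 : ENNReal.ofReal ((M:ℝ) ^ 4) ≠ 0 := (ENNReal.ofReal_pos.2 (by positivity)).ne'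
  have h7 : stdGaussian (EE M) {a | ENNReal.ofReal (M ^ 4) ≤ ENNReal.ofReal (‖a‖ ^ 2)} ≤
      (M : ℝ≥0∞) / ENNReal.ofReal (M ^ 4) := by
    rw [ENNReal.le_div_iff_mul_le (Or.inl hne0) (Or.inl ENNReal.ofReal_ne_top), mul_comm]
    exact h3
  refine h7.trans (le_of_eq ?_)
  rw [← ENNReal.ofReal_natCast, ← ENNReal.ofReal_div_of_pos (by positivity)]
  congr 1
  field_simp

lemma big_all {M : ℕ} (hM : 1 ≤ M) :
    rows (Fin (2 * M - 1)) (EE M) {r | ∃ i, (M:ℝ) ^ 2 < ‖r i‖} ≤ ENNReal.ofReal (2 / M ^ 2) := by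
  have hMpos : (0:ℝ) < M := by exact_mod_cast hM
  have hsub : {r : Fin (2 * M - 1) → EE M | ∃ i, (M:ℝ) ^ 2 < ‖r i‖} ⊆ ⋃ i, {r | (M:ℝ) ^ 2 < ‖r i‖} := by
    rintro r ⟨i, hi⟩
    exact Set.mem_iUnion.2 ⟨i, hi⟩
  refine (measure_mono hsub).trans ((measure_iUnion_fintype_le _ _).trans ?_)
  refine (Finset.sum_le_sum fun i _ => big_one hM i).trans ?_
  rw [Finset.sum_const, nsmul_eq_mul, Finset.card_univ, Fintype.card_fin, ← ENNReal.ofReal_natCast,
    ← ENNReal.ofReal_mul (by positivity)]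
  apply ENNReal.ofReal_le_ofReal
  have h1 : ((2 * M - 1 : ℕ) : ℝ) ≤ 2 * M := by
    have : 2 * M - 1 ≤ 2 * M := Nat.sub_le _ _
    exact_mod_cast this
  calc ((2 * M - 1 : ℕ) : ℝ) * (1 / M ^ 3) ≤ (2 * M) * (1 / M ^ 3) :=
        mul_le_mul_of_nonneg_right h1 (by positivity)
    _ = 2 / M ^ 2 := by field_simp

/-- **Upper bound** at the level `t` -/
lemma omega_upper {ε : ℝ} (hε : 0 < ε) : ∃ (K : ℝ) (M₀ : ℕ), 0 < K ∧ ∀ M : ℕ, M₀ ≤ M → 1 ≤ M → ∀ t : ℝ,
    0 < t → t ≤ 1 → K * M ^ 3 ≤ 4 ^ M * t →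
    gaussianMatrix (2 * M - 1) M {A | t < omega A} ≤ ENNReal.ofReal ε := by
  obtain ⟨K, M₀, hK, h⟩ := upper hε
  refine ⟨K, M₀, hK, fun M hM hM1 t ht ht1 hKt => ?_⟩
  refine (gm_le _ _ fun A hA => ?_).trans (h M hM t ht ht1 hKt)
  simp only [Set.mem_ofPred_eq] at hA ⊢
  intro hhit
  exact absurd (omega_le_of hM1 A hhit) (not_le.2 hA)

/-- **Lower bound** at the level `t` -/
lemma omega_lower {M : ℕ} (hM : 1 ≤ M) {t : ℝ} (ht : 0 ≤ t) :
    gaussianMatrix (2 * M - 1) M {A | omega A < t} ≤ ENNReal.ofReal (4 ^ M * M * (M * t)) := by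
  have h1 : gaussianMatrix (2 * M - 1) M {A | omega A < t} ≤
      rows (Fin (2 * M - 1)) (EE M) ({r | ¬ Gen r} ∪ {r | Low (M * t) r}) := by
    refine gm_le _ _ fun A hA => ?_
    by_cases hg : Gen (toRow A)
    · exact Or.inr (low_of_omega hM A hg hA)
    · exact Or.inl hg
  refine h1.trans ((measure_union_le _ _).trans ?_)
  rw [ae_Gen, zero_add]
  exact low_le M hM (by positivity)

theorem admissible {β : ℝ} (hβ : 1 / 4 < β) (hβ1 : β < 1) :
    Tendsto (fun M : ℕ => gaussianMatrix (2 * M - 1) M {A | maxRow A * β ^ M < omega A}) atTop (𝓝 0) := by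
  apply tz
  intro δ hδ
  obtain ⟨K, M₀, hK, h⟩ := omega_upper (half_pos hδ)
  have hβ0 : 0 < β := by linarith
  have hlim := tendsto_pow_const_div_const_pow_of_one_lt 4 (r := 4 * β) (by linarith)
  have hev : ∀ᶠ M : ℕ in atTop, (M:ℝ) ^ 4 / (4 * β) ^ M < 1 / K := by
    exact hlim.eventually (gt_mem_nhds (by positivity))
  have hev2 : ∀ᶠ M : ℕ in atTop, 1 / (M : ℝ) < δ / 2 :=
    tendsto_one_div_atTop_nhds_zero_nat.eventually (gt_mem_nhds (by positivity))
  filter_upwards [hev, hev2, eventually_ge_atTop (max M₀ 1)] with M h1 h2 h3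
  have hM1 : 1 ≤ M := le_trans (le_max_right _ _) h3
  have hMpos : (0:ℝ) < M := by exact_mod_cast hM1
  have hM1' : (1:ℝ) ≤ M := by exact_mod_cast hM1
  have hβM : β ^ M ≤ 1 := pow_le_one₀ hβ0.le hβ1.le
  have ht : 0 < β ^ M / M := by positivity
  have ht1 : β ^ M / M ≤ 1 := by
    rw [div_le_one hMpos]
    linarith
  have hKt : K * M ^ 3 ≤ 4 ^ M * (β ^ M / M) := by
    rw [← mul_div_assoc, ← mul_pow, le_div_iff₀ hMpos]
    rw [div_lt_div_iff₀ (by positivity) hK] at h1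
    have : K * (M:ℝ) ^ 3 * M = M ^ 4 * K := by ring
    rw [this]
    linarith
  have h4 := h M (le_trans (le_max_left _ _) h3) hM1 _ ht ht1 hKt
  have h5 := small_row hM1 (s := 1 / M) (by positivity)
  have hsub : {A : Fin (2 * M - 1) → Fin M → ℝ | maxRow A * β ^ M < omega A} ⊆
      {A | maxRow A < 1 / M} ∪ {A | β ^ M / M < omega A} := by
    intro A hA
    by_cases hm : maxRow A < 1 / M
    · exact Or.inl hm
    · refine Or.inr ?_
      have h6 : β ^ M / M ≤ maxRow A * β ^ M := by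
        calc β ^ M / M = (1 / M) * β ^ M := by ring
          _ ≤ _ := mul_le_mul_of_nonneg_right (not_lt.1 hm) (by positivity)
      exact lt_of_le_of_lt h6 hA
  refine (measure_mono hsub).trans ((measure_union_le _ _).trans ?_)
  refine (add_le_add h5 h4).trans ?_
  rw [← ENNReal.ofReal_add (by positivity) (by positivity)]
  apply ENNReal.ofReal_le_ofReal
  linarith

theorem inadmissible {β : ℝ} (hβ : 0 < β) (hβ1 : β < 1 / 4) (C : ℝ) :
    Tendsto (fun M : ℕ => gaussianMatrix (2 * M - 1) M {A | omega A ≤ C * maxRow A * β ^ M}) atTop (𝓝 0) := by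
  apply tz
  intro δ hδ
  have hC : 0 < |C| + 1 := by positivity
  have hlim := tendsto_pow_const_mul_const_pow_of_lt_one 4 (r := 4 * β) (by positivity) (by linarith)
  have hev : ∀ᶠ M : ℕ in atTop, (M:ℝ) ^ 4 * (4 * β) ^ M < δ / (2 * (|C| + 1)) := by
    exact hlim.eventually (gt_mem_nhds (by positivity))
  have hev2 : ∀ᶠ M : ℕ in atTop, 1 / (M : ℝ) < δ / 4 :=
    tendsto_one_div_atTop_nhds_zero_nat.eventually (gt_mem_nhds (by positivity))
  filter_upwards [hev, hev2, eventually_ge_atTop 1] with M h1 h2 hM1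
  have hMpos : (0:ℝ) < M := by exact_mod_cast hM1
  have hM1' : (1:ℝ) ≤ M := by exact_mod_cast hM1
  set t := (|C| + 1) * M ^ 2 * β ^ M with ht
  have ht0 : 0 < t := by positivity
  have h3 : gaussianMatrix (2 * M - 1) M {A | omega A ≤ C * maxRow A * β ^ M} ≤
      rows (Fin (2 * M - 1)) (EE M) {r | ∃ i, (M:ℝ) ^ 2 < ‖r i‖} +
        gaussianMatrix (2 * M - 1) M {A | omega A < t} := by
    have hb : gaussianMatrix (2 * M - 1) M {A | ∃ i, (M:ℝ) ^ 2 < ‖toRow A i‖} ≤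
        rows (Fin (2 * M - 1)) (EE M) {r | ∃ i, (M:ℝ) ^ 2 < ‖r i‖} := gm_le _ _ fun A hA => hA
    refine le_trans ?_ (add_le_add hb le_rfl)
    refine le_trans (measure_mono ?_) (measure_union_le _ _)
    intro A hA
    by_cases hbig : ∃ i, (M:ℝ) ^ 2 < ‖toRow A i‖
    · exact Or.inl hbig
    · push Not at hbig
      refine Or.inr ?_
      have h4 := maxRow_le (by omega) A hbig
      have h4' : 0 ≤ maxRow A := (norm_nonneg _).trans (norm_le_maxRow A ⟨0, by omega⟩)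
      have hA' : omega A ≤ C * maxRow A * β ^ M := hA
      have h5 : C * maxRow A * β ^ M ≤ |C| * M ^ 2 * β ^ M := by
        refine mul_le_mul_of_nonneg_right ?_ (by positivity)
        exact mul_le_mul (le_abs_self C) h4 h4' (abs_nonneg _)
      have h6 : |C| * M ^ 2 * β ^ M < t := by
        rw [ht]
        have : 0 < (M:ℝ) ^ 2 * β ^ M := by positivity
        nlinarith
      exact lt_of_le_of_lt (hA'.trans h5) h6
  refine h3.trans ((add_le_add (big_all hM1) (omega_lower hM1 ht0.le)).trans ?_)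
  rw [← ENNReal.ofReal_add (by positivity) (by positivity)]
  apply ENNReal.ofReal_le_ofReal
  have h7 : 2 / (M:ℝ) ^ 2 ≤ δ / 2 := by
    have h8 : 1 / (M:ℝ) ^ 2 ≤ 1 / M := by
      apply one_div_le_one_div_of_le hMpos
      nlinarith
    calc 2 / (M:ℝ) ^ 2 = 2 * (1 / (M:ℝ) ^ 2) := by ring
      _ ≤ 2 * (1 / (M:ℝ)) := by linarith
      _ ≤ δ / 2 := by linarith
  have h9 : 4 ^ M * M * (M * t) ≤ δ / 2 := by
    have h10 : 4 ^ M * M * (M * t) = (|C| + 1) * ((M:ℝ) ^ 4 * (4 * β) ^ M) := by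
      rw [ht, mul_pow]
      ring
    rw [h10]
    calc (|C| + 1) * ((M:ℝ) ^ 4 * (4 * β) ^ M) ≤ (|C| + 1) * (δ / (2 * (|C| + 1))) :=
          mul_le_mul_of_nonneg_left h1.le hC.le
      _ = δ / 2 := by field_simp
  linarith

theorem typical_lower :
    Tendsto (fun M : ℕ => gaussianMatrix (2 * M - 1) M {A | omega A < 1 / (M ^ 3 * 4 ^ M)}) atTop (𝓝 0) := by
  apply tz
  intro δ hδ
  have hev2 : ∀ᶠ M : ℕ in atTop, 1 / (M : ℝ) < δ :=
    tendsto_one_div_atTop_nhds_zero_nat.eventually (gt_mem_nhds hδ)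
  filter_upwards [hev2, eventually_ge_atTop 1] with M h2 hM1
  have hMpos : (0:ℝ) < M := by exact_mod_cast hM1
  refine (omega_lower hM1 (by positivity)).trans ?_
  apply ENNReal.ofReal_le_ofReal
  have : 4 ^ M * M * (M * (1 / (M ^ 3 * 4 ^ M))) = 1 / (M:ℝ) := by
    field_simp
  rw [this]
  exact h2.le

theorem typical_upper :
    Tendsto (fun M : ℕ => gaussianMatrix (2 * M - 1) M {A | M ^ 4 / 4 ^ M < omega A}) atTop (𝓝 0) := by
  apply tz
  intro δ hδ
  obtain ⟨K, M₀, hK, h⟩ := omega_upper hδ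
  have hlim := tendsto_pow_const_div_const_pow_of_one_lt 4 (r := (4:ℝ)) (by norm_num)
  have hev : ∀ᶠ M : ℕ in atTop, (M:ℝ) ^ 4 / 4 ^ M < 1 := hlim.eventually (gt_mem_nhds one_pos)
  obtain ⟨K', hK'⟩ := exists_nat_gt K
  filter_upwards [hev, eventually_ge_atTop (max (max M₀ 1) K')] with M h1 h3
  have hM1 : 1 ≤ M := le_trans (le_trans (le_max_right _ _) (le_max_left _ _)) h3
  have hM0 : M₀ ≤ M := le_trans (le_trans (le_max_left _ _) (le_max_left _ _)) h3
  have hMK : K' ≤ M := le_trans (le_max_right _ _) h3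
  have hMpos : (0:ℝ) < M := by exact_mod_cast hM1
  have hMK' : K ≤ M := hK'.le.trans (by exact_mod_cast hMK)
  refine h M hM0 hM1 _ (by positivity) h1.le ?_
  rw [mul_div_cancel₀ _ (by positivity)]
  calc K * (M:ℝ) ^ 3 ≤ M * M ^ 3 := mul_le_mul_of_nonneg_right hMK' (by positivity)
    _ = M ^ 4 := by ring

end Pool.Agent.X166.GP
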