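import Pool.Agent.X166.GP.W
import Pool.Agent.X166.GP.Defs

set_option autoImplicit false

noncomputable section

open MeasureTheory ProbabilityTheory Module
open scoped ENNReal NNReal RealInnerProductSpace

namespace Pool.Agent.X166.GP

/-- the rows of a matrix as points of Euclidean space -/
def toRow {N M : ℕ} (A : Fin N → Fin M → ℝ) : Fin N → EE M := fun i => WithLp.toLp 2 (A i)

lemma toRow_mp (N M : ℕ) : MeasurePreserving (toRow : (Fin N → Fin M → ℝ) → Fin N → EE M)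
    (gaussianMatrix N M) (rows (Fin N) (EE M)) := by
  refine measurePreserving_pi _ _ fun i => ?_
  exact ⟨by fun_prop, map_pi_eq_stdGaussian⟩

lemma gm_le {N M : ℕ} (P : Set (Fin N → Fin M → ℝ)) (Q : Set (Fin N → EE M))
    (h : ∀ A ∈ P, toRow A ∈ Q) : gaussianMatrix N M P ≤ rows (Fin N) (EE M) Q := by
  have h1 := Measure.le_map_apply (toRow_mp N M).measurable.aemeasurable (μ := gaussianMatrix N M) Q
  rw [(toRow_mp N M).map_eq] at h1
  exact (measure_mono fun A hA => h A hA).trans h1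

lemma inner_toRow {N M : ℕ} (A : Fin N → Fin M → ℝ) (i : Fin N) (x : EE M) :
    ⟪toRow A i, x⟫ = ∑ j, A i j * x j := by
  unfold toRow
  rw [PiLp.inner_apply]
  refine Finset.sum_congr rfl fun j _ => ?_
  simp [mul_comm]

lemma norm_toRow {N M : ℕ} (A : Fin N → Fin M → ℝ) (i : Fin N) :
    ‖toRow A i‖ = Real.sqrt (∑ j, A i j ^ 2) := by
  unfold toRow
  rw [EuclideanSpace.norm_eq]
  simp

lemma norm_le_maxRow {N M : ℕ} (A : Fin N → Fin M → ℝ) (i : Fin N) : ‖toRow A i‖ ≤ maxRow A := by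
  rw [norm_toRow]
  exact le_ciSup (f := fun k => Real.sqrt (∑ j, A k j ^ 2)) (Set.finite_range _).bddAbove i

lemma maxRow_le {N M : ℕ} (hN : 0 < N) (A : Fin N → Fin M → ℝ) {B : ℝ} (h : ∀ i, ‖toRow A i‖ ≤ B) :
    maxRow A ≤ B := by
  have : Nonempty (Fin N) := ⟨⟨0, hN⟩⟩
  refine ciSup_le fun i => ?_
  rw [← norm_toRow]
  exact h i

/-- the value at a unit vector -/
lemma sig_val {N M : ℕ} (A : Fin N → Fin M → ℝ) (S : Finset (Fin N)) (x : EE M) (hx : ‖x‖ = 1) :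
    sigmaMin A S ≤ Real.sqrt (∑ i ∈ S, ⟪toRow A i, x⟫ ^ 2) := by
  have hx2 : ∑ j, (x.ofLp) j ^ 2 = 1 := by
    rw [← EuclideanSpace.real_norm_sq_eq, hx]
    norm_num
  have hbdd : BddBelow (Set.range fun x : {x : Fin M → ℝ // ∑ j, x j ^ 2 = 1} =>
      Real.sqrt (∑ i ∈ S, (∑ j, A i j * x.1 j) ^ 2)) :=
    ⟨0, by rintro _ ⟨q, rfl⟩; exact Real.sqrt_nonneg _⟩
  refine (ciInf_le hbdd ⟨x.ofLp, hx2⟩).trans (le_of_eq ?_)
  congr 1
  refine Finset.sum_congr rfl fun i _ => ?_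
  rw [inner_toRow]

lemma sig_nonneg {N M : ℕ} (A : Fin N → Fin M → ℝ) (S : Finset (Fin N)) : 0 ≤ sigmaMin A S :=
  Real.iInf_nonneg fun _ => Real.sqrt_nonneg _

lemma omega_le_of {M : ℕ} (hM : 1 ≤ M) (A : Fin (2 * M - 1) → Fin M → ℝ) {t : ℝ}
    (h : Hit t (toRow A)) : omega A ≤ t := by
  obtain ⟨o, T, ho, hT, hd⟩ := h
  have hfr : finrank ℝ (EE M) = M := by simp
  have hbdd : BddBelow {s | ∃ S : Finset (Fin (2 * M - 1)), rankCompl A S < M ∧ s = sigmaMin A S} :=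
    ⟨0, by rintro _ ⟨S, _, rfl⟩; exact sig_nonneg A S⟩
  have hcard : (insert o T).card = M := by
    rw [Finset.card_insert_of_notMem ho, hT]
    omega
  have hrank : rankCompl A (insert o T) < M := by
    unfold rankCompl
    refine lt_of_le_of_lt (Matrix.rank_le_card_height _) ?_
    rw [Fintype.card_subtype_compl]
    simp only [Fintype.card_fin, Fintype.card_coe]
    rw [hcard]
    omega
  refine (csInf_le hbdd ⟨insert o T, hrank, rfl⟩).trans ?_
  obtain ⟨n, hn, hnU⟩ := exists_normal (sp T (toRow A)) (lt_of_le_of_lt (finrank_sp _ _) (by rw [hfr, hT]; omega))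
  refine (sig_val A _ n hn).trans ?_
  rw [Finset.sum_insert ho]
  have h0 : ∑ i ∈ T, ⟪toRow A i, n⟫ ^ 2 = 0 := by
    refine Finset.sum_eq_zero fun i hi => ?_
    rw [real_inner_comm, hnU _ (mem_sp hi)]
    norm_num
  rw [h0, add_zero, Real.sqrt_sq_eq_abs, real_inner_comm]
  exact (inner_le_infDist _ n _ hn hnU).trans hd

lemma rank_ge {M : ℕ} (A : Fin (2 * M - 1) → Fin M → ℝ) (hr : Gen (toRow A))
    (S : Finset (Fin (2 * M - 1))) (hS : S.card < M) : M ≤ rankCompl A S := by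
  have hc : M ≤ (Sᶜ).card := by
    rw [Finset.card_compl, Fintype.card_fin]
    omega
  obtain ⟨T, hT, hcard⟩ := Finset.exists_subset_card_eq hc
  have h1 := indep_of hr T (by omega)
  have h2 : LinearIndependent ℝ (fun i : (T : Set (Fin (2 * M - 1))) => A i) :=
    LinearIndependent.map' h1 (WithLp.linearEquiv 2 ℝ (Fin M → ℝ)).toLinearMap
      (LinearEquiv.ker _)
  have h3 := finrank_span_eq_card h2
  unfold rankCompl
  rw [Matrix.rank_eq_finrank_span_row]
  have h4 : Submodule.span ℝ (Set.range fun i : (T : Set (Fin (2 * M - 1))) => A i) ≤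
      Submodule.span ℝ (Set.range (Matrix.of fun (i : {i // i ∉ S}) (j : Fin M) => A i j).row) := by
    apply Submodule.span_mono
    rintro _ ⟨i, rfl⟩
    have hi : (i : Fin (2 * M - 1)) ∉ S := Finset.mem_compl.1 (hT i.2)
    exact ⟨⟨i, hi⟩, rfl⟩
  have h5 := Submodule.finrank_mono h4
  rw [h3] at h5
  simp only [Finset.coe_sort_coe, Fintype.card_coe] at h5
  omega

lemma low_of_omega {M : ℕ} (hM : 1 ≤ M) (A : Fin (2 * M - 1) → Fin M → ℝ) (hr : Gen (toRow A)) {t : ℝ}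
    (h : omega A < t) : Low (M * t) (toRow A) := by
  have hne : {s | ∃ S : Finset (Fin (2 * M - 1)), rankCompl A S < M ∧ s = sigmaMin A S}.Nonempty := by
    refine ⟨_, Finset.univ, ?_, rfl⟩
    unfold rankCompl
    refine lt_of_le_of_lt (Matrix.rank_le_card_height _) ?_
    rw [Fintype.card_subtype_compl]
    simp only [Fintype.card_fin, Fintype.card_coe, Finset.card_univ]
    omega
  obtain ⟨_, ⟨S, hS, rfl⟩, hlt⟩ := exists_lt_of_csInf_lt hne h
  have hSc : M ≤ S.card := by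
    by_contra hcon
    push Not at hcon
    have := rank_ge A hr S hcon
    omega
  have ht : 0 < t := lt_of_le_of_lt (sig_nonneg A S) hlt
  have hne2 : Nonempty {x : Fin M → ℝ // ∑ j, x j ^ 2 = 1} := by
    refine ⟨⟨Pi.single ⟨0, hM⟩ 1, ?_⟩⟩
    rw [Finset.sum_eq_single (⟨0, hM⟩ : Fin M)]
    · simp
    · intro b _ hb
      simp [Pi.single_eq_of_ne hb]
    · simp
  obtain ⟨x, hx⟩ := exists_lt_of_ciInf_lt hlt
  have hxn : ‖(WithLp.toLp 2 x.1 : EE M)‖ = 1 := by
    rw [EuclideanSpace.norm_eq]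
    have : ∑ i, ‖(WithLp.toLp 2 x.1 : EE M) i‖ ^ 2 = 1 := by
      refine Eq.trans ?_ x.2
      refine Finset.sum_congr rfl fun j _ => ?_
      simp
    rw [this, Real.sqrt_one]
  refine low_of hM hr S hSc (WithLp.toLp 2 x.1) hxn ht fun i hi => ?_
  rw [inner_toRow]
  have h1 : (∑ j, A i j * x.1 j) ^ 2 ≤ ∑ i ∈ S, (∑ j, A i j * x.1 j) ^ 2 :=
    Finset.single_le_sum (f := fun i => (∑ j, A i j * x.1 j) ^ 2) (fun i _ => sq_nonneg _) hi
  have h2 : |∑ j, A i j * x.1 j| ≤ Real.sqrt (∑ i ∈ S, (∑ j, A i j * x.1 j) ^ 2) :=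
    Real.abs_le_sqrt h1
  exact h2.trans hx.le

end Pool.Agent.X166.GP
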